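import Pool.Agent.Work.MP_0181e9_al.TopDefs

/-!
# The space of the extension
-/

set_option autoImplicit false

namespace Pool.Agent.Work.MP_0181e9_al

open Filter Topology

universe u v w

section

variable {S T : Type} [Monoid S] [Monoid T] [TopologicalSpace S] (τ : S →* T)

private theorem ext_cont_inS : Continuous (Ext.inS τ) := continuous_coinduced_rng

private theorem ext_open_inS : IsOpenEmbedding (Ext.inS τ) := by
  refine IsOpenEmbedding.of_continuous_injective_isOpenMap (ext_cont_inS τ)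
    (Ext.inS_injective τ) ?_
  intro U hU
  rw [Ext.isOpen_iff]
  have : {x : S | Ext.inS τ x ∈ Ext.inS τ '' U} = U := by
    ext x
    constructor
    · rintro ⟨y, hy, hyx⟩
      rwa [← Ext.inS_injective τ hyx]
    · intro hx
      exact ⟨x, hx, rfl⟩
  rw [this]
  exact hU

private theorem ext_nhds_inS (s : S) : 𝓝 (Ext.inS τ s) = map (Ext.inS τ) (𝓝 s) :=
  ((ext_open_inS τ).map_nhds_eq s).symm

private theorem ext_open_inI (l : T) (h : T →₀ ZMod 2) (r : T) :
    IsOpen ({Ext.inI τ l h r} : Set (Ext τ)) := by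
  rw [Ext.isOpen_iff]
  have : {x : S | Ext.inS τ x ∈ ({Ext.inI τ l h r} : Set (Ext τ))} = ∅ := by
    ext x
    constructor
    · intro hx
      have h2 : Ext.inS τ x = Ext.inI τ l h r := hx
      cases h2
    · intro hx
      exact hx.elim
  rw [this]
  exact isOpen_empty

private theorem ext_nhds_inI (l : T) (h : T →₀ ZMod 2) (r : T) :
    𝓝 (Ext.inI τ l h r) = pure (Ext.inI τ l h r) :=
  (isOpen_singleton_iff_nhds_eq_pure _).1 (ext_open_inI τ l h r)

private theorem ext_open_range : IsOpen (Set.range (Ext.inS τ)) := (ext_open_inS τ).isOpen_range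

instance [T2Space S] : T2Space (Ext τ) := by
  refine ⟨fun x y hxy => ?_⟩
  rcases Ext.cases' τ x with ⟨s, rfl⟩ | ⟨l, h, r, rfl⟩
  · rcases Ext.cases' τ y with ⟨s', rfl⟩ | ⟨l', h', r', rfl⟩
    · have hne : s ≠ s' := fun h => hxy (by rw [h])
      obtain ⟨U, V, hU, hV, hs, hs', hd⟩ := t2_separation hne
      refine ⟨_, _, (ext_open_inS τ).isOpenMap U hU, (ext_open_inS τ).isOpenMap V hV,
        ⟨s, hs, rfl⟩, ⟨s', hs', rfl⟩, ?_⟩
      exact (Set.disjoint_image_iff (Ext.inS_injective τ)).2 hd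
    · refine ⟨_, _, ext_open_range τ, ext_open_inI τ l' h' r', ⟨s, rfl⟩, rfl, ?_⟩
      rw [Set.disjoint_singleton_right]
      rintro ⟨x, hx⟩
      cases hx
  · refine ⟨{Ext.inI τ l h r}, {y | y ≠ Ext.inI τ l h r}, ext_open_inI τ l h r, ?_, rfl,
      fun h => hxy h.symm, ?_⟩
    · rw [Ext.isOpen_iff]
      have : {x : S | Ext.inS τ x ∈ {y : Ext τ | y ≠ Ext.inI τ l h r}} = Set.univ := by
        ext x
        constructor
        · intro _
          trivial
        · intro _ hx
          cases hx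
      rw [this]
      exact isOpen_univ
    · rw [Set.disjoint_singleton_left]
      intro hx
      exact hx rfl

/-- The extension is a topological semigroup. -/
theorem ext_continuousMul [ContinuousMul S] (hτ : ∀ s, ∀ᶠ s' in 𝓝 s, τ s' = τ s) :
    ContinuousMul (Ext τ) := by
  refine ⟨?_⟩
  rw [continuous_iff_continuousAt]
  rintro ⟨x, y⟩
  unfold ContinuousAt
  rw [nhds_prod_eq]
  rcases Ext.cases' τ x with ⟨s, rfl⟩ | ⟨l, h, r, rfl⟩
  · rcases Ext.cases' τ y with ⟨s', rfl⟩ | ⟨l', h', r', rfl⟩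
    · rw [ext_nhds_inS, ext_nhds_inS, prod_map_map_eq, tendsto_map'_iff, ← nhds_prod_eq]
      have hc : Continuous fun p : S × S => Ext.inS τ (p.1 * p.2) :=
        (ext_cont_inS τ).comp continuous_mul
      exact hc.continuousAt (x := (s, s'))
    · rw [ext_nhds_inS, ext_nhds_inI, prod_pure, tendsto_map'_iff, tendsto_map'_iff]
      refine Tendsto.congr' ?_ (tendsto_const_nhds (x := Ext.inS τ s * Ext.inI τ l' h' r'))
      filter_upwards [hτ s] with s' hs'
      change Ext.inI τ (τ s * l') h' r' = Ext.inI τ (τ s' * l') h' r'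
      rw [hs']
  · rcases Ext.cases' τ y with ⟨s', rfl⟩ | ⟨l', h', r', rfl⟩
    · rw [ext_nhds_inS, ext_nhds_inI, pure_prod, tendsto_map'_iff, tendsto_map'_iff]
      refine Tendsto.congr' ?_ (tendsto_const_nhds (x := Ext.inI τ l h r * Ext.inS τ s'))
      filter_upwards [hτ s'] with s'' hs''
      change Ext.inI τ l h (r * τ s') = Ext.inI τ l h (r * τ s'')
      rw [hs'']
    · rw [ext_nhds_inI, ext_nhds_inI, prod_pure_pure]
      exact tendsto_pure_nhds _ _

theorem continuous_inS : Continuous (Ext.inS τ) := by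
  exact ext_cont_inS τ

end

end Pool.Agent.Work.MP_0181e9_al
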