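import Pool.Agent.Work.MP_0181e9_al.TopDefs

/-!
# The space of values
-/

set_option autoImplicit false

namespace Pool.Agent.Work.MP_0181e9_al

open Filter Topology

universe u v w

section

variable {L Z : Type} [TopologicalSpace L] [TopologicalSpace Z]

private theorem pay_cont_iff {X : Type*} [TopologicalSpace X] {f : Pay L Z → X} :
    Continuous f ↔ (∀ φ, Continuous fun a => f (Pay.lam φ a)) ∧ Continuous fun z => f (Pay.zed z) := by
  constructor
  · intro h
    refine ⟨fun φ => ?_, ?_⟩
    · rw [continuous_def]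
      intro s hs
      exact (h.isOpen_preimage s hs).1 φ
    · rw [continuous_def]
      intro s hs
      exact (h.isOpen_preimage s hs).2
  · rintro ⟨h1, h2⟩
    rw [continuous_def]
    intro s hs
    exact ⟨fun φ => (h1 φ).isOpen_preimage s hs, h2.isOpen_preimage s hs⟩

private theorem pay_cont_lam (φ : Option Param) : Continuous (Pay.lam φ : L → Pay L Z) :=
  (pay_cont_iff.1 (continuous_id (X := Pay L Z))).1 φ

private theorem pay_cont_zed : Continuous (Pay.zed : Z → Pay L Z) :=
  (pay_cont_iff.1 (continuous_id (X := Pay L Z))).2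

/-- the type of a payload -/
private def pty (x : Pay L Z) : Pay Unit Unit := Pay.map (fun _ => ()) (fun _ => ()) x

private theorem pay_open_pty (s : Set (Pay Unit Unit)) : IsOpen {x : Pay L Z | pty x ∈ s} := by
  constructor
  · intro φ
    by_cases h : (Pay.lam φ () : Pay Unit Unit) ∈ s
    · have : {a : L | (Pay.lam φ a : Pay L Z) ∈ {x : Pay L Z | pty x ∈ s}} = Set.univ := by
        ext a
        simpa [pty, Pay.map] using h
      rw [this]
      exact isOpen_univ
    · have : {a : L | (Pay.lam φ a : Pay L Z) ∈ {x : Pay L Z | pty x ∈ s}} = ∅ := by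
        ext a
        simpa [pty, Pay.map] using h
      rw [this]
      exact isOpen_empty
  · by_cases h : (Pay.zed () : Pay Unit Unit) ∈ s
    · have : {a : Z | (Pay.zed a : Pay L Z) ∈ {x : Pay L Z | pty x ∈ s}} = Set.univ := by
        ext a
        simpa [pty, Pay.map] using h
      rw [this]
      exact isOpen_univ
    · have : {a : Z | (Pay.zed a : Pay L Z) ∈ {x : Pay L Z | pty x ∈ s}} = ∅ := by
        ext a
        simpa [pty, Pay.map] using h
      rw [this]
      exact isOpen_empty

private def getL (d : L) : Pay L Z → L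
  | .lam _ a => a
  | _ => d

private def getZ (d : Z) : Pay L Z → Z
  | .zed a => a
  | _ => d

private theorem cont_getL (d : L) : Continuous (getL d : Pay L Z → L) :=
  pay_cont_iff.2 ⟨fun _ => continuous_id, continuous_const⟩

private theorem cont_getZ (d : Z) : Continuous (getZ d : Pay L Z → Z) :=
  pay_cont_iff.2 ⟨fun _ => continuous_const, continuous_id⟩

instance [T2Space L] [T2Space Z] : T2Space (Pay L Z) := by
  refine ⟨fun x y hxy => ?_⟩
  by_cases ht : pty x = pty y
  · rcases x with ⟨φ, a⟩ | z | p | _ | n | ⟨j, u⟩ <;>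
      rcases y with ⟨ψ, b⟩ | z' | p' | _ | n' | ⟨j', u'⟩ <;>
      first | (simp [pty, Pay.map] at ht; done) | skip
    · obtain ⟨rfl, -⟩ := Pay.lam.inj ht
      exact separated_by_continuous (cont_getL a) (fun h => hxy (by rw [show a = b from h]))
    · exact separated_by_continuous (cont_getZ z) (fun h => hxy (by rw [show z = z' from h]))
    · exact absurd (by cases ht; rfl) hxy
    · exact absurd rfl hxy
    · exact absurd (by cases ht; rfl) hxy
    · exact absurd (by cases ht; rfl) hxy
  · exact ⟨_, _, pay_open_pty {pty x}, pay_open_pty {pty y}, rfl, rfl,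
      Set.disjoint_left.2 fun w hw hw' => ht (by rw [← show pty w = pty x from hw]; exact hw')⟩

private theorem open_lam (φ : Option Param) : IsOpenEmbedding (Pay.lam φ : L → Pay L Z) := by
  refine IsOpenEmbedding.of_continuous_injective_isOpenMap (pay_cont_lam φ) ?_ ?_
  · intro a b h
    exact (Pay.lam.inj h).2
  · intro U hU
    constructor
    · intro ψ
      by_cases h : ψ = φ
      · subst h
        have : {a : L | (Pay.lam ψ a : Pay L Z) ∈ Pay.lam ψ '' U} = U := by
          ext a
          simp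
        rw [this]
        exact hU
      · have : {a : L | (Pay.lam ψ a : Pay L Z) ∈ Pay.lam φ '' U} = ∅ := by
          ext a
          simp only [Set.mem_ofPred_eq, Set.mem_image, Set.mem_empty_iff_false, iff_false]
          rintro ⟨x, _, hx⟩
          exact h (Pay.lam.inj hx).1.symm
        rw [this]
        exact isOpen_empty
    · have : {a : Z | (Pay.zed a : Pay L Z) ∈ Pay.lam φ '' U} = ∅ := by
        ext a
        simp
      rw [this]
      exact isOpen_empty

private theorem open_zed : IsOpenEmbedding (Pay.zed : Z → Pay L Z) := by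
  refine IsOpenEmbedding.of_continuous_injective_isOpenMap pay_cont_zed ?_ ?_
  · intro a b h
    exact Pay.zed.inj h
  · intro U hU
    constructor
    · intro ψ
      have : {a : L | (Pay.lam ψ a : Pay L Z) ∈ Pay.zed '' U} = ∅ := by
        ext a
        simp
      rw [this]
      exact isOpen_empty
    · have : {a : Z | (Pay.zed a : Pay L Z) ∈ Pay.zed '' U} = U := by
        ext a
        simp
      rw [this]
      exact hU

private theorem nhds_lam' (φ : Option Param) (a : L) :
    𝓝 (Pay.lam φ a : Pay L Z) = map (fun t => Pay.lam φ t) (𝓝 a) :=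
  ((open_lam φ).map_nhds_eq a).symm

private theorem nhds_zed' (z : Z) :
    𝓝 (Pay.zed z : Pay L Z) = map (fun t => Pay.zed t) (𝓝 z) :=
  (open_zed.map_nhds_eq z).symm

private theorem open_const (x : Pay L Z) (h1 : ∀ φ a, x ≠ Pay.lam φ a) (h2 : ∀ z, x ≠ Pay.zed z) :
    IsOpen ({x} : Set (Pay L Z)) := by
  constructor
  · intro φ
    have : {a : L | (Pay.lam φ a : Pay L Z) ∈ ({x} : Set (Pay L Z))} = ∅ := by
      ext a
      simpa using fun h => h1 φ a h.symm
    rw [this]
    exact isOpen_empty
  · have : {a : Z | (Pay.zed a : Pay L Z) ∈ ({x} : Set (Pay L Z))} = ∅ := by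
      ext a
      simpa using fun h => h2 a h.symm
    rw [this]
    exact isOpen_empty

private theorem nhds_const' (x : Pay L Z) (h1 : ∀ φ a, x ≠ Pay.lam φ a)
    (h2 : ∀ z, x ≠ Pay.zed z) : 𝓝 x = map (fun _ : Unit => x) (𝓝 ()) := by
  rw [(isOpen_singleton_iff_nhds_eq_pure x).1 (open_const x h1 h2), nhds_discrete, map_pure]

private theorem tends2 {X X' Y : Type} [TopologicalSpace X] [TopologicalSpace X']
    [TopologicalSpace Y] {x0 : X} {x0' : X'} {e : X → Pay L Z} {e' : X' → Pay L Z} {x y : Pay L Z}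
    {f : Pay L Z × Pay L Z → Y} (h : 𝓝 x = map e (𝓝 x0)) (hx : e x0 = x)
    (h' : 𝓝 y = map e' (𝓝 x0')) (hy : e' x0' = y)
    (hc : Continuous fun p : X × X' => f (e p.1, e' p.2)) : ContinuousAt f (x, y) := by
  subst hx
  subst hy
  unfold ContinuousAt
  rw [nhds_prod_eq, h, h', prod_map_map_eq, tendsto_map'_iff, ← nhds_prod_eq]
  exact hc.continuousAt (x := (x0, x0'))

private theorem cont_main [Alg L Z] [TopAlg L Z] :
    Continuous fun p : Pay L Z × Pay L Z => Pay.main p.1 p.2 := by
  rw [continuous_iff_continuousAt]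
  have hl : ∀ (φ : Option Param), Continuous (Pay.lam φ : L → Pay L Z) := pay_cont_lam
  have hz : Continuous (Pay.zed : Z → Pay L Z) := pay_cont_zed
  rintro ⟨x, y⟩
  rcases x with ⟨_ | φ, a⟩ | z | p | _ | n | ⟨j, u⟩ <;>
    rcases y with ⟨_ | ψ, b⟩ | z' | p' | _ | n' | ⟨j', u'⟩ <;>
    (first
      | refine tends2 (nhds_lam' _ _) rfl (nhds_lam' _ _) rfl ?_
      | refine tends2 (nhds_lam' _ _) rfl (nhds_zed' _) rfl ?_
      | refine tends2 (nhds_zed' _) rfl (nhds_lam' _ _) rfl ?_
      | refine tends2 (nhds_zed' _) rfl (nhds_zed' _) rfl ?_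
      | refine tends2 (nhds_lam' _ _) rfl (nhds_const' _ (by simp) (by simp)) rfl ?_
      | refine tends2 (nhds_zed' _) rfl (nhds_const' _ (by simp) (by simp)) rfl ?_
      | refine tends2 (nhds_const' _ (by simp) (by simp)) rfl (nhds_lam' _ _) rfl ?_
      | refine tends2 (nhds_const' _ (by simp) (by simp)) rfl (nhds_zed' _) rfl ?_
      | refine tends2 (nhds_const' _ (by simp) (by simp)) rfl
          (nhds_const' _ (by simp) (by simp)) rfl ?_) <;>
    simp only [Pay.main] <;>
    (first
      | exact continuous_const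
      | exact (hl _).comp continuous_snd
      | exact (hl _).comp continuous_fst
      | exact hz.comp (TopAlg.zeta _)
      | exact (hl _).comp TopAlg.kap
      | exact (hl _).comp (TopAlg.pj.comp continuous_snd)
      | exact (hl _).comp ((TopAlg.rh _).comp continuous_snd))

private theorem evq (q : Qv L Z) : ∀ᶠ r : Qv L Z in 𝓝 q, pty r.1 = pty q.1 ∧ r.2 = q.2 := by
  have h1 : ∀ᶠ x in 𝓝 q.1, pty x = pty q.1 := (pay_open_pty {pty q.1}).mem_nhds rfl
  have h2 : ∀ᶠ c in 𝓝 q.2, c = q.2 := by
    rw [nhds_discrete]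
    exact Filter.eventually_pure.2 rfl
  have h3 := h1.prod_nhds h2
  exact h3

private theorem ev2 (p q : Qv L Z) : ∀ᶠ r : Qv L Z × Qv L Z in 𝓝 (p, q),
    (pty r.1.1 = pty p.1 ∧ r.1.2 = p.2) ∧ (pty r.2.1 = pty q.1 ∧ r.2.2 = q.2) :=
  (evq p).prod_nhds (evq q)

private theorem pty_wr {x : Pay L Z} {j : Bool} {u : Code} (h : pty x = Pay.wr j u) :
    x = Pay.wr j u := by
  rcases x with ⟨φ, a⟩ | z | p | _ | n | ⟨j', u'⟩ <;> simp only [pty, Pay.map] at h
  all_goals first | (simp at h; done) | (cases h; rfl)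

private theorem cont_wract (j : Bool) (u : Code) : Continuous (wract j u : Qv L Z → Qv L Z) := by
  rw [continuous_iff_continuousAt]
  intro q
  have h : ContinuousAt (fun r : Qv L Z => ((r.1, (wract j u q).2) : Qv L Z)) q :=
    (continuous_fst.prodMk continuous_const).continuousAt
  refine h.congr ?_
  filter_upwards [evq q] with r hr
  obtain ⟨z, v⟩ := q
  obtain ⟨y, w⟩ := r
  obtain ⟨-, rfl⟩ : _ ∧ w = v := hr
  cases w with
  | nil => rfl
  | cons b c =>
    simp only [wract]
    split_ifs <;> rfl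

private theorem cont_pass [Alg L Z] [TopAlg L Z] :
    Continuous fun p : Qv L Z × Qv L Z => pass p.1 p.2 := by
  rw [continuous_iff_continuousAt]
  rintro ⟨⟨x, w⟩, ⟨z, v⟩⟩
  have hA : ∀ c : Code, ContinuousAt (fun r : Qv L Z × Qv L Z => ((r.1.1, c) : Qv L Z))
      ((x, w), (z, v)) := fun c =>
    ((continuous_fst.comp continuous_fst).prodMk continuous_const).continuousAt
  have hB : ∀ c : Code, ContinuousAt (fun r : Qv L Z × Qv L Z => ((r.2.1, c) : Qv L Z))
      ((x, w), (z, v)) := fun c =>
    ((continuous_fst.comp continuous_snd).prodMk continuous_const).continuousAt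
  have hC : ∀ c : Code, ContinuousAt
      (fun r : Qv L Z × Qv L Z => ((Pay.main r.1.1 r.2.1, c) : Qv L Z)) ((x, w), (z, v)) := fun c =>
    ((cont_main.comp ((continuous_fst.comp continuous_fst).prodMk
      (continuous_fst.comp continuous_snd))).prodMk continuous_const).continuousAt
  have he := ev2 ((x, w) : Qv L Z) (z, v)
  cases w with
  | nil =>
    cases v with
    | nil =>
      refine (hC Code.nil).congr ?_
      filter_upwards [he] with r hr
      obtain ⟨⟨x1, w1⟩, ⟨z1, v1⟩⟩ := r
      obtain ⟨⟨-, h1⟩, ⟨-, h2⟩⟩ := hr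
      simp only at h1 h2
      subst h1
      subst h2
      rfl
    | cons b c =>
      refine (hB c).congr ?_
      filter_upwards [he] with r hr
      obtain ⟨⟨x1, w1⟩, ⟨z1, v1⟩⟩ := r
      obtain ⟨⟨-, h1⟩, ⟨-, h2⟩⟩ := hr
      simp only at h1 h2
      subst h1
      subst h2
      rfl
  | cons a d =>
    cases v with
    | nil =>
      refine (hA d).congr ?_
      filter_upwards [he] with r hr
      obtain ⟨⟨x1, w1⟩, ⟨z1, v1⟩⟩ := r
      obtain ⟨⟨-, h1⟩, ⟨-, h2⟩⟩ := hr
      simp only at h1 h2
      subst h1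
      subst h2
      rfl
    | cons b c =>
      by_cases hab : a = b
      · refine (hA d).congr ?_
        filter_upwards [he] with r hr
        obtain ⟨⟨x1, w1⟩, ⟨z1, v1⟩⟩ := r
        obtain ⟨⟨-, h1⟩, ⟨-, h2⟩⟩ := hr
        simp only at h1 h2
        subst h1
        subst h2
        simp only [pass, if_pos hab]
      · refine (hB c).congr ?_
        filter_upwards [he] with r hr
        obtain ⟨⟨x1, w1⟩, ⟨z1, v1⟩⟩ := r
        obtain ⟨⟨-, h1⟩, ⟨-, h2⟩⟩ := hr
        simp only at h1 h2
        subst h1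
        subst h2
        simp only [pass, if_neg hab]

omit [TopologicalSpace L] [TopologicalSpace Z] in
private theorem opw_pass [Alg L Z] {p : Qv L Z} (h : ∀ j u, p ≠ (Pay.wr j u, Code.nil))
    (q : Qv L Z) : opw p q = pass p q := by
  obtain ⟨x, w⟩ := p
  rcases x with ⟨φ, a⟩ | z | p | _ | n | ⟨j', u'⟩ <;> cases w <;>
    first | rfl | exact absurd rfl (h _ _)

omit [TopologicalSpace L] [TopologicalSpace Z] in
private theorem qop_opw [Alg L Z] {q : Qv L Z} (h : ∀ j u, q ≠ (Pay.wr j u, Code.nil))
    (p : Qv L Z) : qop p q = opw p q := by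
  obtain ⟨x, w⟩ := q
  rcases x with ⟨φ, a⟩ | z | p | _ | n | ⟨j', u'⟩ <;> cases w <;>
    first | rfl | exact absurd rfl (h _ _)

private theorem near_wr {p r : Qv L Z} (hr : pty r.1 = pty p.1 ∧ r.2 = p.2)
    (h : ∀ j u, p ≠ (Pay.wr j u, Code.nil)) : ∀ j u, r ≠ (Pay.wr j u, Code.nil) := by
  intro j u hj
  apply h j u
  obtain ⟨x, w⟩ := p
  obtain ⟨y, v⟩ := r
  obtain ⟨h1, h2⟩ := hr
  simp only at h1 h2
  obtain ⟨rfl, rfl⟩ := Prod.mk.inj hj
  rw [pty_wr h1.symm, h2]

private theorem cont_opw [Alg L Z] [TopAlg L Z] :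
    Continuous fun p : Qv L Z × Qv L Z => opw p.1 p.2 := by
  rw [continuous_iff_continuousAt]
  rintro ⟨p, q⟩
  by_cases h : ∀ j u, p ≠ (Pay.wr j u, Code.nil)
  · refine (cont_pass.continuousAt).congr ?_
    filter_upwards [ev2 p q] with r hr
    exact (opw_pass (near_wr hr.1 h) r.2).symm
  · push Not at h
    obtain ⟨j, u, rfl⟩ := h
    refine (((cont_wract j u).comp continuous_snd).continuousAt).congr ?_
    filter_upwards [ev2 (Pay.wr j u, Code.nil) q] with r hr
    obtain ⟨⟨x1, w1⟩, r2⟩ := r
    obtain ⟨⟨h1, h2⟩, -⟩ := hr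
    simp only at h1 h2
    rw [pty_wr (show pty x1 = Pay.wr j u from h1), h2]
    rfl

private theorem cont_qop [Alg L Z] [TopAlg L Z] :
    Continuous fun p : Qv L Z × Qv L Z => qop p.1 p.2 := by
  rw [continuous_iff_continuousAt]
  rintro ⟨p, q⟩
  by_cases h : ∀ j u, q ≠ (Pay.wr j u, Code.nil)
  · refine (cont_opw.continuousAt).congr ?_
    filter_upwards [ev2 p q] with r hr
    exact (qop_opw (near_wr hr.2 h) r.1).symm
  · push Not at h
    obtain ⟨j, u, rfl⟩ := h
    refine (((cont_wract j u).comp continuous_fst).continuousAt).congr ?_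
    filter_upwards [ev2 p (Pay.wr j u, Code.nil)] with r hr
    obtain ⟨r1, ⟨x1, w1⟩⟩ := r
    obtain ⟨-, ⟨h1, h2⟩⟩ := hr
    simp only at h1 h2
    rw [pty_wr (show pty x1 = Pay.wr j u from h1), h2]
    rfl

instance [Alg L Z] [TopAlg L Z] : TopMag (Qv L Z) := ⟨cont_qop⟩

/-- Types are locally constant. -/
theorem qmap_ev [Alg L Z] (q : Qv L Z) :
    ∀ᶠ q' in 𝓝 q, (tyHom L Z).mhom.toFun q' = (tyHom L Z).mhom.toFun q := by
  filter_upwards [evq q] with r hr
  exact Prod.ext hr.1 hr.2

/-- The values of the discrete magma are isolated. -/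
theorem isOpen_qmap {L' Z' : Type} (α : L' → L) (β : Z' → Z) (hα : ∀ a, IsOpen {α a})
    (hβ : ∀ z, IsOpen {β z}) (q : Qv L' Z') : IsOpen {qmap α β q} := by
  have h : IsOpen ({Pay.map α β q.1} : Set (Pay L Z)) := by
    obtain ⟨x, c⟩ := q
    rcases x with ⟨φ, a⟩ | z | p | _ | n | ⟨j', u'⟩
    · have := (open_lam (L := L) (Z := Z) φ).isOpenMap _ (hα a)
      rw [Set.image_singleton] at this
      exact this
    · have := (open_zed (L := L) (Z := Z)).isOpenMap _ (hβ z)
      rw [Set.image_singleton] at this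
      exact this
    · exact open_const _ (by simp [Pay.map]) (by simp [Pay.map])
    · exact open_const _ (by simp [Pay.map]) (by simp [Pay.map])
    · exact open_const _ (by simp [Pay.map]) (by simp [Pay.map])
    · exact open_const _ (by simp [Pay.map]) (by simp [Pay.map])
  have h2 := h.prod (isOpen_discrete ({q.2} : Set Code))
  rw [Set.singleton_prod_singleton] at h2
  exact h2

theorem continuous_lam (φ : Option Param) :
    Continuous fun a : L => ((Pay.lam φ a, Code.nil) : Qv L Z) :=
  (pay_cont_lam φ).prodMk continuous_const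

end

end Pool.Agent.Work.MP_0181e9_al
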