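import Pool.Agent.Work.MP_0181e9_al.TopDefs

/-!
# The space of words
-/

set_option autoImplicit false

namespace Pool.Agent.Work.MP_0181e9_al

open Filter Topology

universe u v w

section

variable {α : Type} [TopologicalSpace α]

private theorem nhds_cons' (a : α) (l : List α) :
    𝓝 (a :: l) = map (fun p : α × List α => p.1 :: p.2) (𝓝 a ×ˢ 𝓝 l) := by
  apply le_antisymm
  · have h : Tendsto (fun x : List α => x) (𝓝 (a :: l))
        (map (fun p : α × List α => p.1 :: p.2) (𝓝 a ×ˢ 𝓝 l)) := by
      rw [List.tendsto_cons_iff]
      exact tendsto_map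
    exact h
  · have h : Tendsto (fun x : List α => x) (𝓝 (a :: l)) (𝓝 (a :: l)) := tendsto_id
    rw [List.tendsto_cons_iff] at h
    exact h

private theorem cons_emb : IsOpenEmbedding (fun p : α × List α => p.1 :: p.2) := by
  apply IsOpenEmbedding.of_continuous_injective_isOpenMap
  · rw [continuous_iff_continuousAt]
    rintro ⟨a, l⟩
    rw [ContinuousAt, nhds_prod_eq, nhds_cons']
    exact tendsto_map
  · rintro ⟨a, l⟩ ⟨b, l'⟩ h
    simp only [List.cons.injEq] at h
    rw [h.1, h.2]
  · rw [isOpenMap_iff_nhds_le]
    rintro ⟨a, l⟩
    rw [nhds_prod_eq, nhds_cons']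

private theorem nil_emb : IsOpenEmbedding (fun _ : Unit => ([] : List α)) := by
  apply IsOpenEmbedding.of_continuous_injective_isOpenMap
  · exact continuous_const
  · intro a b _
    rfl
  · rw [isOpenMap_iff_nhds_le]
    intro a
    rw [nhds_nil, nhds_discrete, Filter.map_pure]

private theorem list_t2 [T2Space α] : T2Space (List α) := by
  rw [t2_iff_nhds]
  intro x
  induction x with
  | nil =>
    intro y hy
    rcases y with _ | ⟨b, l⟩
    · rfl
    · exfalso
      rw [nhds_nil, nhds_cons'] at hy
      have h1 : ({[]} : Set (List α)) ∩ {l | l ≠ []} ∈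
          (pure [] ⊓ map (fun p : α × List α => p.1 :: p.2) (𝓝 b ×ˢ 𝓝 l) : Filter (List α)) := by
        apply inter_mem_inf
        · exact mem_pure.2 rfl
        · rw [mem_map]
          exact Filter.univ_mem' fun p => List.cons_ne_nil _ _
      obtain ⟨z, hz⟩ := hy.nonempty_of_mem h1
      exact hz.2 hz.1
  | cons a l ih =>
    intro y hy
    rcases y with _ | ⟨b, l'⟩
    · exfalso
      rw [nhds_nil, nhds_cons', inf_comm] at hy
      have h1 : ({[]} : Set (List α)) ∩ {l | l ≠ []} ∈
          (pure [] ⊓ map (fun p : α × List α => p.1 :: p.2) (𝓝 a ×ˢ 𝓝 l) : Filter (List α)) := by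
        apply inter_mem_inf
        · exact mem_pure.2 rfl
        · rw [mem_map]
          exact Filter.univ_mem' fun p => List.cons_ne_nil _ _
      obtain ⟨z, hz⟩ := hy.nonempty_of_mem h1
      exact hz.2 hz.1
    · rw [nhds_cons', nhds_cons', ← Filter.map_inf cons_emb.injective, map_neBot_iff,
        Filter.prod_inf_prod, prod_neBot] at hy
      rw [t2_iff_nhds.1 inferInstance hy.1, ih hy.2]

end

section

variable {Q Q' : Type} [Mag Q] [Mag Q'] [TopologicalSpace Q]

instance [T2Space Q] : T2Space (Wd Q) := by
  have h : T2Space (List (Ltr Q)) := list_t2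
  exact T2Space.of_injective_continuous Subtype.val_injective continuous_induced_dom

private theorem act_cont [TopMag Q] :
    Continuous (fun p : Ltr Q × List (Ltr Q) => act p.1 p.2) := by
  have hop : Continuous fun p : Q × Q => Mag.op p.1 p.2 := TopMag.op
  have ei : IsOpenEmbedding (Sum.inl : Unit → Ltr Q) := IsOpenEmbedding.inl
  have er : IsOpenEmbedding (Sum.inr : Q → Ltr Q) := IsOpenEmbedding.inr
  have ec : IsOpenEmbedding (fun p : Ltr Q × List (Ltr Q) => p.1 :: p.2) := cons_emb
  have en : IsOpenEmbedding (fun _ : Unit => ([] : List (Ltr Q))) := nil_emb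
  have eid : IsOpenEmbedding (id : List (Ltr Q) → List (Ltr Q)) := IsOpenEmbedding.id
  have hc : Continuous (fun p : Ltr Q × List (Ltr Q) => p.1 :: p.2) := ec.continuous
  rw [continuous_iff_continuousAt]
  rintro ⟨x, w⟩
  rcases x with ⟨⟩ | q
  · rcases w with _ | ⟨y, w⟩
    · have e := ei.prodMap en
      have h := (e.continuousAt_iff (g := fun p : Ltr Q × List (Ltr Q) => act p.1 p.2)
        (x := ((), ()))).1 (by
          apply Continuous.continuousAt
          exact hc.comp ((ei.continuous.comp continuous_fst).prodMk continuous_const))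
      exact h
    · rcases y with ⟨⟩ | q
      · have e := ei.prodMap (ec.comp (ei.prodMap eid))
        have h := (e.continuousAt_iff (g := fun p : Ltr Q × List (Ltr Q) => act p.1 p.2)
          (x := ((), ((), w)))).1 (by
            apply Continuous.continuousAt
            exact (hc.comp ((ei.continuous.comp continuous_fst).prodMk (hc.comp
              ((ei.continuous.comp continuous_snd.fst).prodMk continuous_snd.snd)))))
        exact h
      · rcases w with _ | ⟨z, w⟩
        · have e := ei.prodMap (ec.comp (er.prodMap en))
          have h := (e.continuousAt_iff (g := fun p : Ltr Q × List (Ltr Q) => act p.1 p.2)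
            (x := ((), (q, ())))).1 (by
              apply Continuous.continuousAt
              exact (hc.comp ((ei.continuous.comp continuous_fst).prodMk (hc.comp
                ((er.continuous.comp continuous_snd.fst).prodMk continuous_const)))))
          exact h
        · rcases z with ⟨⟩ | r
          · have e := ei.prodMap (ec.comp (er.prodMap (ec.comp (ei.prodMap eid))))
            have h := (e.continuousAt_iff (g := fun p : Ltr Q × List (Ltr Q) => act p.1 p.2)
              (x := ((), (q, ((), w))))).1 (by
                apply Continuous.continuousAt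
                exact (hc.comp ((ei.continuous.comp continuous_fst).prodMk (hc.comp
                  ((er.continuous.comp continuous_snd.fst).prodMk (hc.comp
                  ((ei.continuous.comp continuous_snd.snd.fst).prodMk continuous_snd.snd.snd)))))))
            exact h
          · have e := ei.prodMap (ec.comp (er.prodMap (ec.comp (er.prodMap eid))))
            have h := (e.continuousAt_iff (g := fun p : Ltr Q × List (Ltr Q) => act p.1 p.2)
              (x := ((), (q, (r, w))))).1 (by
                apply Continuous.continuousAt
                exact (hc.comp ((er.continuous.comp (hop.comp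
                  (continuous_snd.fst.prodMk continuous_snd.snd.fst))).prodMk
                    continuous_snd.snd.snd)))
            exact h
  · have e := er.prodMap eid
    have h := (e.continuousAt_iff (g := fun p : Ltr Q × List (Ltr Q) => act p.1 p.2)
      (x := (q, w))).1 (by
        apply Continuous.continuousAt
        exact (hc.comp ((er.continuous.comp continuous_fst).prodMk continuous_snd)))
    exact h

private theorem wmul_cont [TopMag Q] :
    Continuous (fun p : List (Ltr Q) × List (Ltr Q) => wmul p.1 p.2) := by
  have ec : IsOpenEmbedding (fun p : Ltr Q × List (Ltr Q) => p.1 :: p.2) := cons_emb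
  have en : IsOpenEmbedding (fun _ : Unit => ([] : List (Ltr Q))) := nil_emb
  have eid : IsOpenEmbedding (id : List (Ltr Q) → List (Ltr Q)) := IsOpenEmbedding.id
  rw [continuous_iff_continuousAt]
  rintro ⟨v, w⟩
  induction v with
  | nil =>
    have e := en.prodMap eid
    have h := (e.continuousAt_iff (g := fun p : List (Ltr Q) × List (Ltr Q) => wmul p.1 p.2)
      (x := ((), w))).1 (by
        apply Continuous.continuousAt
        exact continuous_snd)
    exact h
  | cons x v ih =>
    have e := ec.prodMap eid
    have h := (e.continuousAt_iff (g := fun p : List (Ltr Q) × List (Ltr Q) => wmul p.1 p.2)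
      (x := ((x, v), w))).1 (by
        have h1 : ContinuousAt (fun p : (Ltr Q × List (Ltr Q)) × List (Ltr Q) =>
            (p.1.1, wmul p.1.2 p.2)) ((x, v), w) := by
          apply ContinuousAt.prodMk
          · exact continuous_fst.fst.continuousAt
          · exact ContinuousAt.comp (f := fun p : (Ltr Q × List (Ltr Q)) × List (Ltr Q) =>
              (p.1.2, p.2)) (x := ((x, v), w)) (g := fun p : List (Ltr Q) × List (Ltr Q) =>
              wmul p.1 p.2) ih (continuous_fst.snd.prodMk continuous_snd).continuousAt
        exact ContinuousAt.comp (g := fun p : Ltr Q × List (Ltr Q) => act p.1 p.2)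
          act_cont.continuousAt h1)
    exact h

instance [TopMag Q] : ContinuousMul (Wd Q) := by
  have hv : Continuous (Subtype.val : Wd Q → List (Ltr Q)) := continuous_induced_dom
  constructor
  apply continuous_induced_rng.2
  exact wmul_cont.comp ((hv.comp continuous_fst).prodMk (hv.comp continuous_snd))

/-- Locally constant homomorphisms of magmas give locally constant homomorphisms of words. -/
theorem wmap_ev (φ : MHom Q Q') (hφ : ∀ q, ∀ᶠ q' in 𝓝 q, φ.toFun q' = φ.toFun q) (w : Wd Q) :
    ∀ᶠ w' in 𝓝 w, Wd.map φ w' = Wd.map φ w := by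
  have hl : ∀ l : List (Ltr Q), ∀ᶠ l' in 𝓝 l, l'.map (lmap φ.toFun) = l.map (lmap φ.toFun) := by
    intro l
    induction l with
    | nil =>
      rw [nhds_nil, eventually_pure]
    | cons a l ih =>
      have ha : ∀ᶠ b in 𝓝 a, lmap φ.toFun b = lmap φ.toFun a := by
        rcases a with ⟨⟩ | q
        · rw [nhds_inl, eventually_map]
          exact Eventually.of_forall fun _ => rfl
        · rw [nhds_inr, eventually_map]
          filter_upwards [hφ q] with q' hq'
          show Sum.inr (φ.toFun q') = Sum.inr (φ.toFun q)
          rw [hq']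
      rw [nhds_cons', eventually_map]
      filter_upwards [ha.prod_mk ih] with p hp
      rw [List.map_cons, List.map_cons, hp.1, hp.2]
  have h1 : Tendsto (Subtype.val : Wd Q → List (Ltr Q)) (𝓝 w) (𝓝 w.1) :=
    (continuous_induced_dom (f := (Subtype.val : Wd Q → List (Ltr Q)))).tendsto w
  filter_upwards [h1.eventually (hl w.1)] with w' hw'
  exact Subtype.ext hw'

/-- Words of isolated values are isolated. -/
theorem isOpen_wmap (φ : MHom Q' Q) (hφ : ∀ q, IsOpen {φ.toFun q}) (w : Wd Q') :
    IsOpen {Wd.map φ w} := by
  have hl : ∀ l : List (Ltr Q'), 𝓝 (l.map (lmap φ.toFun)) = pure (l.map (lmap φ.toFun)) := by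
    intro l
    induction l with
    | nil => exact nhds_nil
    | cons a l ih =>
      have ha : 𝓝 (lmap φ.toFun a) = pure (lmap φ.toFun a) := by
        rcases a with ⟨⟩ | q
        · show 𝓝 (Sum.inl () : Ltr Q) = pure (Sum.inl ())
          rw [nhds_inl, nhds_discrete, Filter.map_pure]
        · show 𝓝 (Sum.inr (φ.toFun q) : Ltr Q) = pure (Sum.inr (φ.toFun q))
          rw [nhds_inr, (isOpen_singleton_iff_nhds_eq_pure _).1 (hφ q), Filter.map_pure]
      rw [List.map_cons, nhds_cons', ha, ih, prod_pure_pure, Filter.map_pure]
  have h2 : IsOpen ({(Wd.map φ w).1} : Set (List (Ltr Q))) := by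
    rw [isOpen_singleton_iff_nhds_eq_pure, Wd.map_val]
    exact hl w.1
  have h3 : ({Wd.map φ w} : Set (Wd Q)) = (Subtype.val : Wd Q → List (Ltr Q)) ⁻¹' {(Wd.map φ w).1} := by
    ext x
    constructor
    · intro h
      exact congrArg Subtype.val h
    · intro h
      exact Subtype.ext h
  rw [h3]
  exact h2.preimage continuous_induced_dom

theorem continuous_v : Continuous (Wd.v : Q → Wd Q) := by
  apply continuous_induced_rng.2
  have hc : Continuous (fun p : Ltr Q × List (Ltr Q) => p.1 :: p.2) := cons_emb.continuous
  exact hc.comp (continuous_inr.prodMk continuous_const)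

end

end Pool.Agent.Work.MP_0181e9_al
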