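import Pool.Agent.Work.MP_0181e9_al.TopAlgH
import Pool.Agent.Work.MP_0181e9_al.TopPay
import Pool.Agent.Work.MP_0181e9_al.TopWd
import Pool.Agent.Work.MP_0181e9_al.TopExt

/-!
# `X` is not closed in a Hausdorff semigroup
-/

set_option autoImplicit false

namespace Pool.Agent.Work.MP_0181e9_al

open Filter Topology

universe u v w

private theorem nc_tyw (s : SW ℕ (ℕ × ℕ)) :
    tyw Lh Zh (Wd.map incl.mhom s) = tyw ℕ (ℕ × ℕ) s := by
  apply Subtype.ext
  show (s.1.map (lmap incl.mhom.toFun)).map (lmap (tyHom Lh Zh).mhom.toFun) =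
    s.1.map (lmap (tyHom ℕ (ℕ × ℕ)).mhom.toFun)
  rw [List.map_map]
  apply List.map_congr_left
  intro x _
  rcases x with x | ⟨q, c⟩
  · rfl
  · rcases q with ⟨_ | φ, a⟩ | z' | p | _ | n | ⟨j, u⟩ <;> rfl

private theorem nc_inj : Function.Injective (Wd.map incl.mhom : SW ℕ (ℕ × ℕ) → SW Lh Zh) := by
  intro s s' h
  apply Subtype.ext
  have h1 : s.1.map (lmap incl.mhom.toFun) = s'.1.map (lmap incl.mhom.toFun) :=
    congrArg Subtype.val h
  have hq : Function.Injective (incl.mhom.toFun) :=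
    qmap_injective (fun a b h => Lh.fin.inj h) (fun a b h => Zh.fin.inj h)
  have hl : Function.Injective (lmap incl.mhom.toFun) :=
    Sum.map_injective.2 ⟨Function.injective_id, hq⟩
  exact List.map_injective_iff.2 hl h1

/-- the embedding -/
private noncomputable def ncFun : XX → Ext (tyw Lh Zh)
  | Sum.inl s => Ext.inS _ (Wd.map incl.mhom s)
  | Sum.inr (l, h, r) => Ext.inI _ l h r

private theorem ncFun_inS (s : SW ℕ (ℕ × ℕ)) :
    ncFun (Ext.inS _ s) = Ext.inS _ (Wd.map incl.mhom s) := rfl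

private theorem ncFun_inI (l : SW Unit Unit) (h : SW Unit Unit →₀ ZMod 2) (r : SW Unit Unit) :
    ncFun (Ext.inI _ l h r) = Ext.inI _ l h r := rfl

private noncomputable def ncHom : XX →ₙ* Ext (tyw Lh Zh) where
  toFun := ncFun
  map_mul' x y := by
    rcases Ext.cases' _ x with ⟨s, rfl⟩ | ⟨l, h, r, rfl⟩ <;>
      rcases Ext.cases' _ y with ⟨s', rfl⟩ | ⟨l', h', r', rfl⟩
    · rw [Ext.inS_mul, ncFun_inS, ncFun_inS, ncFun_inS, Ext.inS_mul, map_mul]
    · rw [Ext.inS_mul_inI, ncFun_inI, ncFun_inS, ncFun_inI, Ext.inS_mul_inI, nc_tyw]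
    · rw [Ext.inI_mul_inS, ncFun_inI, ncFun_inI, ncFun_inS, Ext.inI_mul_inS, nc_tyw]
    · rw [Ext.inI_mul_inI, ncFun_inI, ncFun_inI, ncFun_inI, Ext.inI_mul_inI]

private theorem ncHom_inj : Function.Injective ncHom := by
  intro x y hxy
  have hxy' : ncFun x = ncFun y := hxy
  rcases Ext.cases' _ x with ⟨s, rfl⟩ | ⟨l, h, r, rfl⟩ <;>
    rcases Ext.cases' _ y with ⟨s', rfl⟩ | ⟨l', h', r', rfl⟩
  · rw [ncFun_inS, ncFun_inS] at hxy'
    rw [nc_inj (Ext.inS_injective _ hxy')]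
  · exact absurd hxy' (by
      intro h1
      cases h1)
  · exact absurd hxy' (by
      intro h1
      cases h1)
  · rw [ncFun_inI, ncFun_inI] at hxy'
    rw [Ext.inI_inj] at hxy' ⊢
    exact hxy'

private theorem nc_open (x : XX) : IsOpen {ncHom x} := by
  rw [Ext.isOpen_iff]
  rcases Ext.cases' _ x with ⟨s, rfl⟩ | ⟨l, h, r, rfl⟩
  · have h1 : {x : SW Lh Zh | Ext.inS (tyw Lh Zh) x ∈ ({ncHom (Ext.inS _ s)} : Set _)} =
        {Wd.map incl.mhom s} := by
      ext z
      constructor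
      · intro hz
        exact Ext.inS_injective _ hz
      · intro hz
        have hz' : z = Wd.map incl.mhom s := hz
        rw [hz']
        rfl
    rw [h1]
    exact isOpen_wmap incl.mhom (fun q => isOpen_qmap Lh.fin Zh.fin Lh.isOpen_fin
      Zh.isOpen_fin q) s
  · have h1 : {x : SW Lh Zh | Ext.inS (tyw Lh Zh) x ∈ ({ncHom (Ext.inI _ l h r)} : Set _)} =
        ∅ := by
      ext z
      constructor
      · intro hz
        cases hz
      · intro hz
        exact absurd hz (Set.notMem_empty _)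
    rw [h1]
    exact isOpen_empty

theorem XX_not_closed : ¬ T2SClosed.{0} XX := by
  intro hcl
  have : ContinuousMul (Ext (tyw Lh Zh)) :=
    ext_continuousMul _ fun s => wmap_ev (tyHom Lh Zh).mhom (fun q => qmap_ev q) s
  have h1 : IsClosed (Set.range ncHom) := by
    refine hcl (Ext (tyw Lh Zh)) ncHom ⟨ncHom_inj, fun x => ⟨{ncHom x}, nc_open x, fun x' => ?_⟩⟩
    exact ⟨fun h => ncHom_inj h, fun h => by rw [h]; rfl⟩
  have ht : Tendsto (fun n : ℕ => Lh.fin n) (hyperfilter ℕ : Filter ℕ) (𝓝 Lh.inf) := by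
    rw [tendsto_nhds]
    intro G hG hinf
    exact Lh.isOpen_iff.1 hG hinf
  have hc : Continuous fun a : Lh =>
      Ext.inS (tyw Lh Zh) (Wd.v ((Pay.lam none a, Code.nil) : Qv Lh Zh)) :=
    (continuous_inS _).comp (continuous_v.comp (continuous_lam none))
  have h2 := (hc.tendsto Lh.inf).comp ht
  have h3 : Ext.inS (tyw Lh Zh) (Wd.v ((Pay.lam none Lh.inf, Code.nil) : Qv Lh Zh)) ∈
      Set.range ncHom := by
    refine h1.mem_of_tendsto h2 (Eventually.of_forall fun n => ?_)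
    exact ⟨Ext.inS (tyw ℕ (ℕ × ℕ)) (Wd.v ((Pay.lam none n, Code.nil) : QN)), rfl⟩
  obtain ⟨x, hx⟩ := h3
  have hx' : ncFun x = _ := hx
  rcases Ext.cases' _ x with ⟨s, rfl⟩ | ⟨l, h, r, rfl⟩
  · rw [ncFun_inS] at hx'
    have h40 := Ext.inS_injective (tyw Lh Zh) hx'
    have h4 := congrArg (fun w : Wd (Qv Lh Zh) => w.1) h40
    have h5 : s.1.map (lmap incl.mhom.toFun) =
        [Sum.inr ((Pay.lam none Lh.inf, Code.nil) : Qv Lh Zh)] := h4
    rcases hs : s.1 with _ | ⟨y, w⟩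
    · rw [hs] at h5
      cases h5
    · rw [hs, List.map_cons] at h5
      have h6 := (List.cons.inj h5).1
      rcases y with y | ⟨q, c⟩
      · cases h6
      · have h7 := congrArg Prod.fst (Sum.inr.inj h6)
        rcases q with ⟨_ | φ, a⟩ | z' | p | _ | n | ⟨j, u⟩ <;> cases h7
  · cases hx'

end Pool.Agent.Work.MP_0181e9_al
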