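import Pool.Agent.Work.MP_0181e9_al.Conv

/-!
# The ideal kills limits up to types
-/

set_option autoImplicit false

namespace Pool.Agent.Work.MP_0181e9_al

open Filter Topology

universe u v w

theorem act_length {Q : Type} [Mag Q] (x : Ltr Q) (w : List (Ltr Q)) :
    (act x w).length % 2 = (w.length + 1) % 2 := by
  rcases x with x | x
  · rcases w with _ | ⟨y, w⟩
    · rfl
    · rcases y with y | y
      · rfl
      · rcases w with _ | ⟨z, w⟩
        · rfl
        · rcases z with z | z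
          · rfl
          · change (Sum.inr (Mag.op y z) :: w : List (Ltr Q)).length % 2 = _
            simp only [List.length_cons]
            omega
  · rfl

theorem wmul_length {Q : Type} [Mag Q] (v w : List (Ltr Q)) :
    (wmul v w).length % 2 = (v.length + w.length) % 2 := by
  induction v with
  | nil => simp
  | cons x v ih =>
    rw [wmul_cons, act_length, List.length_cons]
    omega

/-- Values act freely on both sides (parity of the length). -/
theorem v_free {Q : Type} [Mag Q] (q : Q) (l : Wd Q) : Wd.v q * l ≠ l ∧ l * Wd.v q ≠ l := by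
  constructor
  · intro h
    have h1 := congrArg (fun w : Wd Q => w.1.length % 2) h
    simp only [Wd.mul_val, wmul_length] at h1
    have h2 : (Wd.v q).1.length = 1 := rfl
    omega
  · intro h
    have h1 := congrArg (fun w : Wd Q => w.1.length % 2) h
    simp only [Wd.mul_val, wmul_length] at h1
    have h2 : (Wd.v q).1.length = 1 := rfl
    omega

section

variable {S T : Type} [Monoid S] [Monoid T] (τ : S →* T)
    {Y : Type u} [Semigroup Y] [TopologicalSpace Y] [ContinuousMul Y] [T2Space Y]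
    (h : Ext τ →ₙ* Y) (hd : DiscEmb h) {ι : Type v} (𝒱 : Ultrafilter ι)

theorem add_self_two (a : T →₀ ZMod 2) : a + a = 0 := by
  ext t
  simp only [Finsupp.add_apply, Finsupp.zero_apply]
  exact CharTwo.add_self_eq_zero _

include hd in
/-- Diagonal elements of the ideal. -/
theorem anchor_diag (c : ι → T →₀ ZMod 2) (hc : Cv 𝒱 fun i => h (Ext.inI τ 1 (c i) 1)) :
    EC 𝒱 c := by
  obtain ⟨y, hy⟩ := hc
  have h1 : ∀ i j, Ext.inI τ 1 (c i) 1 * Ext.inI τ 1 (c j) 1 =
      Ext.inI τ 1 (c i + Finsupp.single 1 1 + c j) 1 := by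
    intro i j
    rw [Ext.inI_mul_inI, mul_one]
  have h2 : y * y = h (Ext.inI τ 1 (Finsupp.single 1 1) 1) := by
    have h3 := hy.mul hy
    refine tendsto_nhds_unique h3 (tendsto_const_nhds.congr fun i => ?_)
    rw [← map_mul, h1]
    congr 2
    rw [add_right_comm, add_self_two, zero_add]
  obtain ⟨G, hG, hG'⟩ := hd.2 (Ext.inI τ 1 (Finsupp.single 1 1) 1)
  have h4 : {p : Y × Y | p.1 * p.2 ∈ G} ∈ 𝓝 (y, y) := by
    apply (continuous_mul.isOpen_preimage G hG).mem_nhds
    change y * y ∈ G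
    rw [h2]
    exact (hG' _).2 rfl
  rw [nhds_prod_eq, Filter.mem_prod_same_iff] at h4
  obtain ⟨V, hV, hV'⟩ := h4
  have h5 := hy.eventually hV
  obtain ⟨i0, hi0⟩ := h5.exists
  refine ⟨c i0, h5.mono fun i hi => ?_⟩
  have h6 : h (Ext.inI τ 1 (c i) 1) * h (Ext.inI τ 1 (c i0) 1) ∈ G :=
    hV' (Set.mk_mem_prod hi hi0)
  rw [← map_mul, hG', h1, Ext.inI_inj] at h6
  have h7 := h6.2.1
  have h8 : c i + Finsupp.single 1 1 + c i0 + (Finsupp.single 1 1 + c i0) =
      Finsupp.single 1 1 + (Finsupp.single 1 1 + c i0) := by rw [h7]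
  calc c i = c i + (Finsupp.single 1 1 + Finsupp.single 1 1) + (c i0 + c i0) := by
        rw [add_self_two, add_self_two, add_zero, add_zero]
    _ = c i + Finsupp.single 1 1 + c i0 + (Finsupp.single 1 1 + c i0) := by abel
    _ = (Finsupp.single 1 1 + Finsupp.single 1 1) + c i0 := by rw [h8]; abel
    _ = c i0 := by rw [add_self_two, zero_add]

theorem ec_of_pair (l l' : ι → T) (hl : ∀ i, l' i ≠ l i)
    (hc : EC 𝒱 fun i => (Finsupp.single (l i) 1 + Finsupp.single (l' i) 1 : T →₀ ZMod 2)) :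
    EC 𝒱 l := by
  obtain ⟨D, hD⟩ := hc
  refine EC.of_finite (D.support : Set T) D.support.finite_toSet (hD.mono fun i hi => ?_)
  simp only at hi
  rw [Finset.mem_coe, Finsupp.mem_support_iff, ← hi, Finsupp.add_apply, Finsupp.single_eq_same,
    Finsupp.single_eq_of_ne (hl i).symm]
  decide

include hd in
/-- Convergent families in the ideal are eventually constant. -/
theorem anchor_ideal' (t : T) (ht : ∀ l : T, t * l ≠ l ∧ l * t ≠ l)
    (l : ι → T) (k : ι → T →₀ ZMod 2) (r : ι → T)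
    (hc : Cv 𝒱 fun i => h (Ext.inI τ (l i) (k i) (r i))) : EC 𝒱 l ∧ EC 𝒱 k ∧ EC 𝒱 r := by
  have h1 : ∀ s t : T, EC 𝒱 fun i => (Finsupp.single (s * l i) 1 + k i +
      Finsupp.single (r i * t) 1 : T →₀ ZMod 2) := by
    intro s t
    apply anchor_diag τ h hd 𝒱
    obtain ⟨y, hy⟩ := Cv.mul 𝒱 (Cv.mul 𝒱 (Cv.const 𝒱 (h (Ext.inI τ 1 0 s))) hc)
      (Cv.const 𝒱 (h (Ext.inI τ t 0 1)))
    refine ⟨y, hy.congr fun i => ?_⟩
    rw [← map_mul, ← map_mul, Ext.inI_mul_inI, Ext.inI_mul_inI, zero_add, add_zero]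
  obtain ⟨c1, hc1⟩ := h1 1 1
  obtain ⟨c2, hc2⟩ := h1 t 1
  obtain ⟨c3, hc3⟩ := h1 1 t
  have hl : EC 𝒱 l := by
    apply ec_of_pair 𝒱 l (fun i => t * l i) (fun i => (ht _).1)
    refine ⟨c1 + c2, (hc1.and hc2).mono fun i hi => ?_⟩
    obtain ⟨e1, e2⟩ := hi
    simp only [one_mul, mul_one] at e1 e2 ⊢
    rw [← e1, ← e2]
    calc _ = (Finsupp.single (l i) 1 + Finsupp.single (t * l i) 1 : T →₀ ZMod 2) + (k i + k i) +
          (Finsupp.single (r i) 1 + Finsupp.single (r i) 1) := by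
          rw [add_self_two, add_self_two, add_zero, add_zero]
      _ = _ := by abel
  have hr : EC 𝒱 r := by
    apply ec_of_pair 𝒱 r (fun i => r i * t) (fun i => (ht _).2)
    refine ⟨c1 + c3, (hc1.and hc3).mono fun i hi => ?_⟩
    obtain ⟨e1, e2⟩ := hi
    simp only [one_mul, mul_one] at e1 e2 ⊢
    rw [← e1, ← e2]
    calc _ = (Finsupp.single (r i) 1 + Finsupp.single (r i * t) 1 : T →₀ ZMod 2) + (k i + k i) +
          (Finsupp.single (l i) 1 + Finsupp.single (l i) 1) := by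
          rw [add_self_two, add_self_two, add_zero, add_zero]
      _ = _ := by abel
  refine ⟨hl, ?_, hr⟩
  obtain ⟨l0, hl0⟩ := hl
  obtain ⟨r0, hr0⟩ := hr
  refine ⟨c1 + Finsupp.single l0 1 + Finsupp.single r0 1,
    (hc1.and (hl0.and hr0)).mono fun i hi => ?_⟩
  obtain ⟨e1, e2, e3⟩ := hi
  simp only [one_mul, mul_one] at e1
  rw [← e1, e2, e3]
  calc k i = k i + (Finsupp.single l0 1 + Finsupp.single l0 1) +
        (Finsupp.single r0 1 + Finsupp.single r0 1) := by
        rw [add_self_two, add_self_two, add_zero, add_zero]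
    _ = _ := by abel

end

/-- Convergent families in the ideal are eventually constant. -/
theorem anchor_ideal {S T : Type} [Monoid S] [Monoid T] (τ : S →* T) (t : T)
    (ht : ∀ l : T, t * l ≠ l ∧ l * t ≠ l)
    {Y : Type u} [Semigroup Y] [TopologicalSpace Y] [ContinuousMul Y] [T2Space Y]
    (h : Ext τ →ₙ* Y) (hd : DiscEmb h) {ι : Type v} (𝒱 : Ultrafilter ι)
    (l : ι → T) (k : ι → T →₀ ZMod 2) (r : ι → T)
    (hc : Cv 𝒱 fun i => h (Ext.inI τ (l i) (k i) (r i))) : EC 𝒱 l ∧ EC 𝒱 k ∧ EC 𝒱 r :=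
  anchor_ideal' τ h hd 𝒱 t ht l k r hc

/-- Convergent families in `S` have an eventually constant image in `T`. -/
theorem anchor_S {S T : Type} [Monoid S] [Monoid T] (τ : S →* T) (t : T)
    (ht : ∀ l : T, t * l ≠ l ∧ l * t ≠ l)
    {Y : Type u} [Semigroup Y] [TopologicalSpace Y] [ContinuousMul Y] [T2Space Y]
    (h : Ext τ →ₙ* Y) (hd : DiscEmb h) {ι : Type v} (𝒱 : Ultrafilter ι)
    (s : ι → S) (hc : Cv 𝒱 fun i => h (Ext.inS τ (s i))) : EC 𝒱 fun i => τ (s i) := by
  have h1 : Cv 𝒱 fun i => h (Ext.inI τ (τ (s i)) 0 1) := by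
    obtain ⟨y, hy⟩ := Cv.mul 𝒱 hc (Cv.const 𝒱 (h (Ext.inI τ 1 0 1)))
    refine ⟨y, hy.congr fun i => ?_⟩
    rw [← map_mul, Ext.inS_mul_inI, mul_one]
  exact (anchor_ideal τ t ht h hd 𝒱 _ _ _ h1).1

end Pool.Agent.Work.MP_0181e9_al
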