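import Pool.Agent.Work.MP_0181e9_al.Defs

/-!
# Extraction of the payload at a position
-/

set_option autoImplicit false

namespace Pool.Agent.Work.MP_0181e9_al

open Filter Topology

universe u v w

section

variable {L Z : Type}

/-- The bit which makes a value pass from the right. -/
def bb : Qv L Z → Bool
  | (.wr j _, .nil) => !j
  | (_, .nil) => false
  | (_, .cons a _) => !a

/-- The bit which makes a value pass from the left. -/
def aa : Qv L Z → Bool
  | (.wr j _, .nil) => !j
  | (_, .nil) => false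
  | (_, .cons b _) => b

/-- The first bit of the code. -/
def jj : Qv L Z → Bool
  | (_, .nil) => false
  | (_, .cons b _) => b

/-- The passing code of a list of values. -/
def acode : List (Qv L Z) → Code → Code
  | [], w => w
  | q :: qs, w => .cons (aa q) (acode qs w)

variable [Alg L Z]

theorem P2 (p : Qv L Z) (z : Pay L Z) (v : Code) : qop p (z, .cons (bb p) v) = (z, v) := by
  obtain ⟨x, w⟩ := p
  cases x <;> cases w <;> simp [qop, opw, pass, bb, wract] <;> cases z <;> simp [qop, opw, pass, bb, wract]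

theorem P1 (x : Pay L Z) (w : Code) (q : Qv L Z) : qop (x, .cons (aa q) w) q = (x, w) := by
  obtain ⟨z, v⟩ := q
  cases z <;> cases v <;> simp [qop, opw, pass, aa, wract] <;> cases x <;> simp [qop, opw, pass, wract]

theorem W1 (p : Qv L Z) (u : Code) : qop p (.wr (jj p) u, .nil) = (p.1, u) := by
  obtain ⟨x, w⟩ := p
  cases w <;> simp [qop, wract, jj]

theorem W2 (q : Qv L Z) (u : Code) (hq : ∀ j u, q ≠ (.wr j u, .nil)) :
    qop (.wr (jj q) u, .nil) q = (q.1, u) := by
  obtain ⟨x, w⟩ := q
  cases x <;> cases w <;> simp_all [qop, opw, wract, jj]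

theorem foldl_acode (x : Pay L Z) (qs : List (Qv L Z)) (w : Code) :
    qs.foldl qop (x, acode qs w) = (x, w) := by
  induction qs with
  | nil => rfl
  | cons q qs ih => simp only [List.foldl_cons, acode, P1, ih]

theorem fold_eq (e z : Qv L Z) (qs : List (Qv L Z)) :
    ((Wd.f : Wd (Qv L Z)) ^ (qs.length + 1) * Wd.v e) * (Wd.pr (qs.map Sum.inr) * Wd.v z) =
      Wd.v (qop (qs.foldl qop e) z) := by
  induction qs generalizing e with
  | nil =>
    simp only [List.length_nil, zero_add, pow_one, List.map_nil, Wd.pr_nil, one_mul, mul_assoc,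
      List.foldl_nil]
    exact Wd.f_v_v e z
  | cons q qs ih =>
    rw [List.foldl_cons, ← ih, List.length_cons, pow_succ _ (qs.length + 1), List.map_cons,
      Wd.pr_cons, show Wd.g (Sum.inr q) = Wd.v q from rfl]
    simp only [mul_assoc]
    congr 1

end

/-- The type of a value. -/
def ty (q : QN) : QT := (tyHom ℕ (ℕ × ℕ)).mhom.toFun q

theorem bb_ty (q : QN) : bb (ty q) = bb q := by
  obtain ⟨x, w⟩ := q
  cases x <;> cases w <;> rfl

theorem aa_ty (q : QN) : aa (ty q) = aa q := by
  obtain ⟨x, w⟩ := q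
  cases x <;> cases w <;> rfl

theorem jj_ty (q : QN) : jj (ty q) = jj q := by
  obtain ⟨x, w⟩ := q
  cases x <;> cases w <;> rfl

theorem acode_ty (qs : List QN) (w : Code) : acode (qs.map ty) w = acode qs w := by
  induction qs with
  | nil => rfl
  | cons q qs ih => simp only [List.map_cons, acode, ih, aa_ty]

theorem ty_op (p q : QN) : ty (qop p q) = qop (ty p) (ty q) := map_qop _ _ _

theorem ty_foldl (e : QN) (qs : List QN) : ty (qs.foldl qop e) = (qs.map ty).foldl qop (ty e) := by
  induction qs generalizing e with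
  | nil => rfl
  | cons q qs ih => rw [List.foldl_cons, ih, List.map_cons, List.foldl_cons, ty_op]

/-- The shape of a list of letters. -/
def lty (l : List (Ltr QN)) : List (Ltr QT) := l.map (lmap ty)

theorem lty_cons (x : Ltr QN) (l : List (Ltr QN)) : lty (x :: l) = lmap ty x :: lty l := rfl

theorem lmap_inl_iff (x : Ltr QN) : lmap ty x = Sum.inl () ↔ x = Sum.inl () := by
  rcases x with x | x
  · simp [lmap]
  · simp [lmap]

theorem lmap_inr_iff (x : Ltr QN) (q' : QT) : lmap ty x = Sum.inr q' ↔
    ∃ q, x = Sum.inr q ∧ ty q = q' := by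
  rcases x with x | x
  · simp [lmap]
  · simp [lmap]

/-- Shapes without adjacent values starting with an operator. -/
inductive Down : List (Ltr QT) → Prop
  | nil : Down []
  | op {w : List (Ltr QT)} : Down w → Down (Sum.inl () :: w)
  | app {q : QT} {w : List (Ltr QT)} : Down w → Down (Sum.inl () :: Sum.inr q :: w)

theorem down_of_irr (w : List (Ltr QT)) : ∀ n, w.length ≤ n → Irr (Sum.inl () :: w) →
    Down (Sum.inl () :: w) := by
  intro n
  induction n generalizing w with
  | zero =>
    intro h _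
    rw [List.length_eq_zero_iff.1 (Nat.le_zero.1 h)]
    exact .op .nil
  | succ n ih =>
    intro h hw
    rcases w with _ | ⟨x, w⟩
    · exact .op .nil
    · rcases x with x | x
      · exact .op (ih w (by simpa using h) hw)
      · rcases w with _ | ⟨y, w⟩
        · exact .app .nil
        · rcases y with y | y
          · refine .app (ih w ?_ hw)
            simp only [List.length_cons] at h
            omega
          · exact absurd hw (by simp [Irr])

theorem decomp (t : List (Ltr QT)) (ht : Irr t) :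
    ∃ (qs : List QT) (D : List (Ltr QT)), t = qs.map Sum.inr ++ D ∧ Down D := by
  induction t with
  | nil => exact ⟨[], [], rfl, .nil⟩
  | cons x t ih =>
    rcases x with x | x
    · exact ⟨[], _, rfl, down_of_irr t _ le_rfl ht⟩
    · obtain ⟨qs, D, h, hD⟩ := ih ht.tail
      exact ⟨x :: qs, D, by rw [h]; rfl, hD⟩

theorem lemC {D : List (Ltr QT)} (hD : Down D) : ∀ (c : Pay ℕ (ℕ × ℕ)) (u : Code),
    ∃ v : Wd QN, ∀ l, lty l = D → Wd.pr l * v = Wd.v (c, u) := by
  induction hD with
  | nil =>
    intro c u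
    refine ⟨Wd.v (c, u), fun l hl => ?_⟩
    rw [List.map_eq_nil_iff.1 hl]
    exact one_mul _
  | @op w hw ih =>
    intro c u
    obtain ⟨v, hv⟩ := ih .pi .nil
    refine ⟨v * Wd.v (c, .cons (bb ((.pi, .nil) : QN)) u), fun l hl => ?_⟩
    rcases l with _ | ⟨x, l⟩
    · simp [lty] at hl
    · rw [lty_cons, List.cons.injEq, lmap_inl_iff] at hl
      obtain ⟨rfl, hl⟩ := hl
      rw [Wd.pr_cons, mul_assoc, ← mul_assoc (Wd.pr l), hv l hl]
      exact (Wd.f_v_v _ _).trans (congrArg Wd.v (P2 _ _ _))
  | @app q' w hw ih =>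
    intro c u
    obtain ⟨v, hv⟩ := ih c (.cons (bb q') u)
    refine ⟨v, fun l hl => ?_⟩
    rcases l with _ | ⟨x, l⟩
    · simp [lty] at hl
    rcases l with _ | ⟨y, l⟩
    · simp [lty] at hl
    rw [lty_cons, lty_cons, List.cons.injEq, List.cons.injEq, lmap_inl_iff, lmap_inr_iff] at hl
    obtain ⟨rfl, ⟨q, rfl, rfl⟩, hl⟩ := hl
    rw [Wd.pr_cons, Wd.pr_cons, mul_assoc, mul_assoc, hv l hl, bb_ty]
    exact (Wd.f_v_v _ _).trans (congrArg Wd.v (P2 _ _ _))

theorem lemT {D : List (Ltr QT)} (hD : Down D) : ∀ (n : ℕ) (q' : QT), D[n]? = some (Sum.inr q') →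
    ∀ u : Code, ∃ v : Wd QN, ∀ l, lty l = D → ∀ q : QN, l[n]? = some (Sum.inr q) →
      Wd.pr l * v = Wd.v (q.1, u) := by
  induction hD with
  | nil =>
    intro n q' h
    simp at h
  | @op w hw ih =>
    intro n q' h u
    rcases n with _ | n
    · simp at h
    rw [List.getElem?_cons_succ] at h
    obtain ⟨v, hv⟩ := ih n q' h (.cons (aa ((.pi, .nil) : QN)) u)
    refine ⟨v * Wd.v (.pi, .nil), fun l hl q hq => ?_⟩
    rcases l with _ | ⟨x, l⟩
    · simp at hq
    · rw [lty_cons, List.cons.injEq, lmap_inl_iff] at hl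
      obtain ⟨rfl, hl⟩ := hl
      rw [List.getElem?_cons_succ] at hq
      rw [Wd.pr_cons, mul_assoc, ← mul_assoc (Wd.pr l), hv l hl q hq]
      exact (Wd.f_v_v _ _).trans (congrArg Wd.v (P1 _ _ _))
  | @app p' w hw ih =>
    intro n q' h u
    rcases n with _ | n
    · simp at h
    rw [List.getElem?_cons_succ] at h
    rcases n with _ | n
    · obtain ⟨v, hv⟩ := lemC hw (.wr (jj p') u) .nil
      refine ⟨v, fun l hl q hq => ?_⟩
      rcases l with _ | ⟨x, l⟩
      · simp at hq
      rcases l with _ | ⟨y, l⟩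
      · simp at hq
      rw [lty_cons, lty_cons, List.cons.injEq, List.cons.injEq, lmap_inl_iff, lmap_inr_iff] at hl
      obtain ⟨rfl, ⟨p, rfl, rfl⟩, hl⟩ := hl
      have hpq : p = q := by simpa using hq
      subst hpq
      rw [Wd.pr_cons, Wd.pr_cons, mul_assoc, mul_assoc, hv l hl, jj_ty]
      exact (Wd.f_v_v _ _).trans (congrArg Wd.v (W1 _ _))
    · rw [List.getElem?_cons_succ] at h
      obtain ⟨v, hv⟩ := ih n q' h (.cons (bb p') u)
      refine ⟨v, fun l hl q hq => ?_⟩
      rcases l with _ | ⟨x, l⟩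
      · simp at hq
      rcases l with _ | ⟨y, l⟩
      · simp at hq
      rw [lty_cons, lty_cons, List.cons.injEq, List.cons.injEq, lmap_inl_iff, lmap_inr_iff] at hl
      obtain ⟨rfl, ⟨p, rfl, rfl⟩, hl⟩ := hl
      rw [List.getElem?_cons_succ, List.getElem?_cons_succ] at hq
      rw [Wd.pr_cons, Wd.pr_cons, mul_assoc, mul_assoc, hv l hl q hq, bb_ty]
      exact (Wd.f_v_v _ _).trans (congrArg Wd.v (P2 _ _ _))

theorem lty_inr (qs' : List QT) (l : List (Ltr QN)) (h : lty l = qs'.map Sum.inr) :
    ∃ qs : List QN, l = qs.map Sum.inr ∧ qs.map ty = qs' := by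
  induction qs' generalizing l with
  | nil => exact ⟨[], List.map_eq_nil_iff.1 h, rfl⟩
  | cons q' qs' ih =>
    rcases l with _ | ⟨x, l⟩
    · simp [lty] at h
    · rw [lty_cons, List.map_cons, List.cons.injEq, lmap_inr_iff] at h
      obtain ⟨⟨q, rfl, rfl⟩, h⟩ := h
      obtain ⟨qs, rfl, rfl⟩ := ih l h
      exact ⟨q :: qs, rfl, rfl⟩

/-- For words of a fixed type shape, every value which is not an active writer can be extracted. -/
theorem extract (t : SW Unit Unit) (n : ℕ) (q' : QT) (hq : t.1[n]? = some (Sum.inr q'))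
    (hw : ∀ j u, q' ≠ (.wr j u, .nil)) :
    ∃ u v : SW ℕ (ℕ × ℕ), ∀ s, tyw ℕ (ℕ × ℕ) s = t → ∀ q : QN, s.1[n]? = some (Sum.inr q) →
      u * s * v = Wd.v (q.1, Code.nil) := by
  obtain ⟨qs', D, htD, hD⟩ := decomp t.1 t.2
  have key : ∀ s : SW ℕ (ℕ × ℕ), tyw ℕ (ℕ × ℕ) s = t → ∃ (qs : List QN) (l : List (Ltr QN)),
      s.1 = qs.map Sum.inr ++ l ∧ qs.map ty = qs' ∧ lty l = D ∧
        s = Wd.pr (qs.map Sum.inr) * Wd.pr l := by
    intro s hs
    have h1 : lty s.1 = qs'.map Sum.inr ++ D := by
      rw [← htD, ← hs]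
      rfl
    obtain ⟨l1, l2, h2, h3, h4⟩ := List.map_eq_append_iff.1 h1
    obtain ⟨qs, rfl, h5⟩ := lty_inr qs' l1 h3
    refine ⟨qs, l2, h2, h5, h4, ?_⟩
    rw [← Wd.pr_append, ← h2, Wd.pr_eq]
  rw [htD] at hq
  by_cases hn : n < qs'.length
  · -- target among the leading values
    rw [List.getElem?_append_left (by simpa using hn), List.getElem?_map] at hq
    obtain ⟨z, hz⟩ := lemC hD .pi .nil
    have hq2 : qs'[n]? = some q' := by
      rcases hqn : qs'[n]? with _ | q2
      · rw [hqn] at hq
        simp at hq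
      · rw [hqn] at hq
        simp only [Option.map_some, Option.some.injEq, Sum.inr.injEq] at hq
        rw [hq]
    have hsplit : qs' = qs'.take n ++ q' :: qs'.drop (n + 1) := by
      obtain ⟨h1, h2⟩ := List.getElem?_eq_some_iff.1 hq2
      rw [← h2, List.cons_getElem_drop_succ, List.take_append_drop]
    set A := qs'.take n with hA
    set B := qs'.drop (n + 1) with hB
    have hAl : A.length = n := by
      rw [hA, List.length_take]
      omega
    set u' := acode B (.cons (aa ((.pi, .nil) : QN)) .nil) with hu'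
    refine ⟨Wd.f ^ (qs'.length + 1) * Wd.v (.wr (jj q') u', acode A .nil), z, fun s hs q hsq => ?_⟩
    obtain ⟨qs, l, h1, h2, h3, h4⟩ := key s hs
    have hlen : qs.length = qs'.length := by rw [← h2, List.length_map]
    rw [h1, List.getElem?_append_left (by simpa [hlen] using hn), List.getElem?_map] at hsq
    have hq3 : qs[n]? = some q := by
      rcases hqn : qs[n]? with _ | q2
      · rw [hqn] at hsq
        simp at hsq
      · rw [hqn] at hsq
        simp only [Option.map_some, Option.some.injEq, Sum.inr.injEq] at hsq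
        rw [hsq]
    have hsplit2 : qs = qs.take n ++ q :: qs.drop (n + 1) := by
      obtain ⟨h1, h2⟩ := List.getElem?_eq_some_iff.1 hq3
      rw [← h2, List.cons_getElem_drop_succ, List.take_append_drop]
    have hA2 : acode A .nil = acode (qs.take n) .nil := by
      rw [hA, ← h2, ← List.map_take, acode_ty]
    have hB2 : u' = acode (qs.drop (n + 1)) (.cons (aa ((.pi, .nil) : QN)) .nil) := by
      rw [hu', hB, ← h2, ← List.map_drop, acode_ty]
    have hqq : q' = ty q := by
      have : qs'[n]? = some (ty q) := by rw [← h2, List.getElem?_map, hq3]; rfl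
      rw [hq2] at this
      exact Option.some.inj this
    have hwq : ∀ j u, q ≠ (.wr j u, .nil) := by
      rintro j u rfl
      exact hw j u hqq
    have e1 : Wd.pr l * z = Wd.v ((.pi, .nil) : QN) := hz l h3
    calc Wd.f ^ (qs'.length + 1) * Wd.v (.wr (jj q') u', acode A .nil) * s * z
        = (Wd.f ^ (qs.length + 1) * Wd.v (.wr (jj q') u', acode A .nil)) *
          (Wd.pr (qs.map Sum.inr) * Wd.v ((.pi, .nil) : QN)) := by
          rw [← e1, hlen]
          conv_lhs => rw [h4]
          simp only [mul_assoc]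
      _ = Wd.v (qop (qs.foldl qop (.wr (jj q') u', acode A .nil)) (.pi, .nil)) := fold_eq _ _ _
      _ = Wd.v (q.1, Code.nil) := by
          congr 1
          conv_lhs => rw [hsplit2]
          rw [List.foldl_append, hA2, foldl_acode, List.foldl_cons, hqq, jj_ty,
            W2 q _ hwq, hB2, foldl_acode, P1]
  · -- target in the rest
    have hn' : qs'.length ≤ n := not_lt.1 hn
    rw [List.getElem?_append_right (by simpa using hn'), List.length_map] at hq
    set e' : QT := qs'.foldl qop (ty (.pi, .nil)) with he'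
    obtain ⟨z, hz⟩ := lemT hD (n - qs'.length) q' hq (.cons (bb e') .nil)
    refine ⟨Wd.f ^ (qs'.length + 1) * Wd.v (.pi, .nil), z, fun s hs q hsq => ?_⟩
    obtain ⟨qs, l, h1, h2, h3, h4⟩ := key s hs
    have hlen : qs.length = qs'.length := by rw [← h2, List.length_map]
    rw [h1, List.getElem?_append_right (by simpa [hlen] using hn'), List.length_map, hlen] at hsq
    have e1 : Wd.pr l * z = Wd.v (q.1, .cons (bb e') .nil) := hz l h3 q hsq
    have e2 : bb e' = bb (qs.foldl qop ((.pi, .nil) : QN)) := by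
      rw [he', ← h2, ← ty_foldl, bb_ty]
    calc Wd.f ^ (qs'.length + 1) * Wd.v (.pi, .nil) * s * z
        = (Wd.f ^ (qs.length + 1) * Wd.v ((.pi, .nil) : QN)) *
          (Wd.pr (qs.map Sum.inr) * Wd.v (q.1, .cons (bb e') .nil)) := by
          rw [← e1, hlen]
          conv_lhs => rw [h4]
          simp only [mul_assoc]
      _ = Wd.v (qop (qs.foldl qop (.pi, .nil)) (q.1, .cons (bb e') .nil)) := fold_eq _ _ _
      _ = Wd.v (q.1, Code.nil) := by rw [e2, P2]

end Pool.Agent.Work.MP_0181e9_al
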