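import Pool.Agent.Work.MP_0181e9_al.Conv

/-!
# Zero-dimensional semigroups have no new limits of payloads
-/

set_option autoImplicit false

namespace Pool.Agent.Work.MP_0181e9_al

open Filter Topology

universe u v w

private theorem kill_core {Y : Type u} [TopologicalSpace Y] [T2Space Y] (hz : ClopenBase Y)
    (m : Y → Y → Y) (hm : Continuous fun p : Y × Y => m p.1 p.2) (e : Pay ℕ (ℕ × ℕ) → Y)
    (he : ∀ x z : Pay ℕ (ℕ × ℕ), (∀ j u, x ≠ .wr j u) → (∀ j u, z ≠ .wr j u) →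
      m (e x) (e z) = e (Pay.main x z))
    (hi : ∀ x, ∃ G : Set Y, IsOpen G ∧ ∀ x', e x' ∈ G ↔ x' = x)
    (V : Ultrafilter ℕ) (σ : Y)
    (hσ : Tendsto (fun a : ℕ => e (.lam none a)) (V : Filter ℕ) (𝓝 σ))
    (hnp : ∀ n : ℕ, ∀ᶠ a in (V : Filter ℕ), n < a) : False := by
  classical
  have mR : ∀ y : Y, Tendsto (fun a : ℕ => m y (e (.lam none a))) (V : Filter ℕ) (𝓝 (m y σ)) :=
    fun y => (hm.tendsto (y, σ)).comp (tendsto_const_nhds.prodMk_nhds hσ)
  have mL : ∀ (x : ℕ → Y) (s : Y), Tendsto x (V : Filter ℕ) (𝓝 s) → ∀ y : Y,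
      Tendsto (fun a : ℕ => m (x a) y) (V : Filter ℕ) (𝓝 (m s y)) :=
    fun x s hx y => (hm.tendsto (s, y)).comp (hx.prodMk_nhds tendsto_const_nhds)
  have hP : ∀ pr : Param, Tendsto (fun a : ℕ => e (.lam (some pr) a)) (V : Filter ℕ)
      (𝓝 (m (e (.par pr)) σ)) := by
    intro pr
    refine (mR (e (.par pr))).congr fun a => ?_
    exact he _ _ (by intro j u h; cases h) (by intro j u h; cases h)
  have h2 : ∀ (pr : Param) (a : ℕ), m (e (.lam (some pr) a)) σ = e (.zed (a, pr.1.1 a)) := by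
    intro pr a
    refine tendsto_nhds_unique (mR (e (.lam (some pr) a))) ?_
    refine tendsto_const_nhds.congr' ?_
    filter_upwards [hnp a] with b hb
    rw [he _ _ (by intro j u h; cases h) (by intro j u h; cases h)]
    have h3 : Pay.main (Pay.lam (some pr) a : Pay ℕ (ℕ × ℕ)) (.lam none b) =
        .zed (if a < b then (a, pr.1.1 a) else (b, pr.1.2 b)) := rfl
    rw [h3, if_pos hb]
  have h3 : ∀ pr : Param, Tendsto (fun a : ℕ => e (.zed (a, pr.1.1 a))) (V : Filter ℕ)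
      (𝓝 (m (m (e (.par pr)) σ) σ)) :=
    fun pr => (mL _ _ (hP pr) σ).congr fun a => h2 pr a
  have h4 : ∀ (pr : Param) (b : ℕ), m (m (e (.par pr)) σ) (e (.lam none b)) =
      e (.zed (b, pr.1.2 b)) := by
    intro pr b
    refine tendsto_nhds_unique (mL _ _ (hP pr) (e (.lam none b))) ?_
    refine tendsto_const_nhds.congr' ?_
    filter_upwards [hnp b] with a ha
    rw [he _ _ (by intro j u h; cases h) (by intro j u h; cases h)]
    have h3 : Pay.main (Pay.lam (some pr) a : Pay ℕ (ℕ × ℕ)) (.lam none b) =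
        .zed (if a < b then (a, pr.1.1 a) else (b, pr.1.2 b)) := rfl
    rw [h3, if_neg (by omega)]
  have h5 : ∀ pr : Param, Tendsto (fun b : ℕ => e (.zed (b, pr.1.2 b))) (V : Filter ℕ)
      (𝓝 (m (m (e (.par pr)) σ) σ)) :=
    fun pr => (mR _).congr fun b => h4 pr b
  have h6 : ∀ z : ℕ × ℕ, m (e (.zed z)) σ = e (.lam none 0) := by
    intro z
    refine tendsto_nhds_unique (mR (e (.zed z))) ?_
    refine tendsto_const_nhds.congr' ?_
    filter_upwards [hnp z.2] with b hb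
    rw [he _ _ (by intro j u h; cases h) (by intro j u h; cases h)]
    have h3 : Pay.main (Pay.zed z : Pay ℕ (ℕ × ℕ)) (.lam none b) =
        .lam none (if z.1 < b ∧ z.2 = 2 ^ b then 1 else 0) := rfl
    rw [h3, if_neg]
    rintro ⟨_, h7⟩
    have h8 : b < 2 ^ b := Nat.lt_two_pow_self
    omega
  obtain ⟨y0, hy0⟩ : ∃ y0, Tendsto (fun a : ℕ => e (.zed (a, 0))) (V : Filter ℕ) (𝓝 y0) :=
    ⟨_, h3 ⟨(fun _ => 0, fun _ => 0), Eventually.of_forall fun _ => by simp⟩⟩
  have h7 : m y0 σ = e (.lam none 0) := by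
    refine tendsto_nhds_unique (mL _ _ hy0 σ) ?_
    exact tendsto_const_nhds.congr fun a => (h6 (a, 0)).symm
  obtain ⟨G, hG, hG'⟩ := hi (.lam none 0)
  have hmem : (y0, σ) ∈ (fun p : Y × Y => m p.1 p.2) ⁻¹' G := by
    change m y0 σ ∈ G
    rw [h7]
    exact (hG' _).2 rfl
  obtain ⟨O', W, hO', hW, hyO', hσW, hsub⟩ := isOpen_prod_iff.1 (hG.preimage hm) y0 σ hmem
  obtain ⟨O, hO, hyO, hOO'⟩ := hz y0 O' hO' hyO'
  have hE0 : ∀ᶠ a in (V : Filter ℕ), e (.zed (a, 0)) ∈ O := hy0.eventually (hO.isOpen.mem_nhds hyO)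
  have hclaim : ∀ᶠ a in (V : Filter ℕ), ∀ k : ℕ, e (.zed (a, k)) ∈ O := by
    by_contra hcon
    have hcon' : ∀ᶠ a in (V : Filter ℕ), ¬ ∀ k : ℕ, e (.zed (a, k)) ∈ O :=
      Ultrafilter.eventually_not.2 hcon
    let f : ℕ → ℕ := fun a => if h : ∃ k : ℕ, e (.zed (a, k)) ∉ O then Nat.find h - 1 else 0
    let g : ℕ → ℕ := fun a => if h : ∃ k : ℕ, e (.zed (a, k)) ∉ O then Nat.find h else 0
    have hfg : ∀ a, f a ≤ g a + 1 ∧ g a ≤ f a + 1 := by
      intro a
      by_cases h : ∃ k : ℕ, e (.zed (a, k)) ∉ O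
      · simp only [f, g, dif_pos h]
        omega
      · simp only [f, g, dif_neg h]
        omega
    let pr : Param := ⟨(f, g), Eventually.of_forall hfg⟩
    have hf := h3 pr
    have hg := h5 pr
    have hfO : ∀ᶠ a in (V : Filter ℕ), e (.zed (a, pr.1.1 a)) ∈ O := by
      filter_upwards [hE0, hcon'] with a ha0 ha
      have h : ∃ k : ℕ, e (.zed (a, k)) ∉ O := by
        by_contra h'
        exact ha fun k => by_contra fun hk => h' ⟨k, hk⟩
      have h8 : pr.1.1 a = Nat.find h - 1 := dif_pos h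
      rw [h8]
      have h9 : Nat.find h ≠ 0 := by
        intro h10
        have h11 := Nat.find_spec h
        rw [h10] at h11
        exact h11 ha0
      by_contra h10
      exact Nat.find_min h (m := Nat.find h - 1) (by omega) h10
    have hgO : ∀ᶠ a in (V : Filter ℕ), e (.zed (a, pr.1.2 a)) ∈ Oᶜ := by
      filter_upwards [hcon'] with a ha
      have h : ∃ k : ℕ, e (.zed (a, k)) ∉ O := by
        by_contra h'
        exact ha fun k => by_contra fun hk => h' ⟨k, hk⟩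
      have h8 : pr.1.2 a = Nat.find h := dif_pos h
      rw [h8]
      exact Nat.find_spec h
    have h8 := hO.isClosed.mem_of_tendsto hf hfO
    have h9 := hO.isOpen.isClosed_compl.mem_of_tendsto hg hgO
    exact h9 h8
  obtain ⟨a, ha⟩ := hclaim.exists
  have hWe : ∀ᶠ b in (V : Filter ℕ), e (.lam none b) ∈ W := hσ.eventually (hW.mem_nhds hσW)
  obtain ⟨b, hb1, hb2⟩ := (hWe.and (hnp a)).exists
  have h8 : m (e (.zed (a, 2 ^ b))) (e (.lam none b)) ∈ G :=
    hsub (Set.mk_mem_prod (hOO' (ha (2 ^ b))) hb1)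
  rw [he _ _ (by intro j u h; cases h) (by intro j u h; cases h)] at h8
  have h9 : Pay.main (Pay.zed (a, 2 ^ b) : Pay ℕ (ℕ × ℕ)) (.lam none b) =
      .lam none (if a < b ∧ 2 ^ b = 2 ^ b then 1 else 0) := rfl
  rw [h9, if_pos ⟨hb2, rfl⟩] at h8
  have h10 := (hG' _).1 h8
  simp at h10

private theorem kill_lam {Y : Type u} [TopologicalSpace Y] [T2Space Y] (hz : ClopenBase Y)
    (m : Y → Y → Y) (hm : Continuous fun p : Y × Y => m p.1 p.2) (e : Pay ℕ (ℕ × ℕ) → Y)
    (he : ∀ x z : Pay ℕ (ℕ × ℕ), (∀ j u, x ≠ .wr j u) → (∀ j u, z ≠ .wr j u) →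
      m (e x) (e z) = e (Pay.main x z))
    (hi : ∀ x, ∃ G : Set Y, IsOpen G ∧ ∀ x', e x' ∈ G ↔ x' = x)
    {ι : Type v} (𝒱 : Ultrafilter ι) (a : ι → ℕ) (hc : Cv 𝒱 fun i => e (.lam none (a i))) :
    EC 𝒱 a := by
  by_contra hcon
  obtain ⟨σ, hσ⟩ := hc
  have hne : ∀ n : ℕ, ∀ᶠ i in (𝒱 : Filter ι), a i ≠ n := by
    intro n
    refine Ultrafilter.eventually_not.2 fun h => ?_
    exact hcon ⟨n, h⟩
  have hlt : ∀ n : ℕ, ∀ᶠ i in (𝒱 : Filter ι), n < a i := by
    intro n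
    have h1 : ∀ᶠ i in (𝒱 : Filter ι), ∀ k ∈ Set.Iic n, a i ≠ k :=
      (Filter.eventually_all_finite (Set.finite_Iic n)).2 fun k _ => hne k
    filter_upwards [h1] with i hi'
    by_contra h2
    exact hi' (a i) (not_lt.1 h2) rfl
  refine kill_core hz m hm e he hi (𝒱.map a) σ ?_ ?_
  · rw [Ultrafilter.coe_map, tendsto_map'_iff]
    exact hσ
  · intro n
    rw [Ultrafilter.coe_map, eventually_map]
    exact hlt n

/-- In a zero-dimensional Hausdorff space with a continuous operation extending the main operation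
of payloads, convergent families of payloads of constant type are eventually constant. -/
theorem kill {Y : Type u} [TopologicalSpace Y] [T2Space Y] (hz : ClopenBase Y) (m : Y → Y → Y)
    (hm : Continuous fun p : Y × Y => m p.1 p.2) (e : Pay ℕ (ℕ × ℕ) → Y)
    (he : ∀ x z : Pay ℕ (ℕ × ℕ), (∀ j u, x ≠ .wr j u) → (∀ j u, z ≠ .wr j u) →
      m (e x) (e z) = e (Pay.main x z))
    (hi : ∀ x, ∃ G : Set Y, IsOpen G ∧ ∀ x', e x' ∈ G ↔ x' = x)
    {ι : Type v} (𝒱 : Ultrafilter ι) (p : ι → Pay ℕ (ℕ × ℕ)) (hc : Cv 𝒱 fun i => e (p i))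
    (ht : EC 𝒱 fun i => Pay.map (fun _ => ()) (fun _ => ()) (p i)) : EC 𝒱 p := by
  have hmul : ∀ x : Pay ℕ (ℕ × ℕ), ∀ q : ι → Pay ℕ (ℕ × ℕ), (∀ j u, x ≠ .wr j u) →
      (∀ᶠ i in (𝒱 : Filter ι), ∀ j u, q i ≠ .wr j u) → (Cv 𝒱 fun i => e (q i)) →
      Cv 𝒱 fun i => e (Pay.main x (q i)) := by
    intro x q hx hq ⟨y, hy⟩
    refine ⟨m (e x) y, ?_⟩
    have h1 : Tendsto (fun i => m (e x) (e (q i))) (𝒱 : Filter ι) (𝓝 (m (e x) y)) :=
      (hm.tendsto (e x, y)).comp (tendsto_const_nhds.prodMk_nhds hy)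
    refine h1.congr' ?_
    filter_upwards [hq] with i hi'
    exact he _ _ hx hi'
  have hcongr : ∀ q q' : ι → Pay ℕ (ℕ × ℕ), (∀ᶠ i in (𝒱 : Filter ι), q i = q' i) →
      (Cv 𝒱 fun i => e (q i)) → Cv 𝒱 fun i => e (q' i) := by
    intro q q' h ⟨y, hy⟩
    exact ⟨y, hy.congr' (h.mono fun i hi' => congrArg e hi')⟩
  obtain ⟨t0, ht0⟩ := ht
  rcases t0 with ⟨φ, a0⟩ | z0 | p0 | _ | n0 | ⟨j0, u0⟩
  · -- letters `lam`
    have hex : ∀ᶠ i in (𝒱 : Filter ι), ∃ a : ℕ, p i = .lam φ a := by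
      filter_upwards [ht0] with i hi'
      cases hp : p i with
      | lam φ' a =>
        rw [hp] at hi'
        simp only [Pay.map, Pay.lam.injEq] at hi'
        exact ⟨a, by rw [hi'.1]⟩
      | zed z => rw [hp] at hi'; simp [Pay.map] at hi'
      | par p' => rw [hp] at hi'; simp [Pay.map] at hi'
      | pi => rw [hp] at hi'; simp [Pay.map] at hi'
      | rho n => rw [hp] at hi'; simp [Pay.map] at hi'
      | wr j u => rw [hp] at hi'; simp [Pay.map] at hi'
    have hch : ∀ i, ∃ a : ℕ, (∃ a : ℕ, p i = .lam φ a) → p i = .lam φ a := by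
      intro i
      by_cases h : ∃ a : ℕ, p i = .lam φ a
      · obtain ⟨a, ha⟩ := h
        exact ⟨a, fun _ => ha⟩
      · exact ⟨0, fun h' => absurd h' h⟩
    choose a ha using hch
    have hpa : ∀ᶠ i in (𝒱 : Filter ι), p i = .lam φ (a i) := hex.mono fun i hi' => ha i hi'
    have hc1 := hcongr p (fun i => .lam φ (a i)) hpa hc
    have hca : EC 𝒱 a := by
      rcases φ with _ | φ
      · exact kill_lam hz m hm e he hi 𝒱 a hc1
      · have h2 := hmul .pi (fun i => .lam (some φ) (a i)) (by intro j u h; cases h)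
          (Eventually.of_forall fun i => by intro j u h; cases h) hc1
        exact kill_lam hz m hm e he hi 𝒱 a h2
    obtain ⟨a1, ha1⟩ := hca
    refine ⟨.lam φ a1, ?_⟩
    filter_upwards [hpa, ha1] with i h1 h2
    rw [h1, h2]
  · -- letters `zed`
    have hex : ∀ᶠ i in (𝒱 : Filter ι), ∃ z : ℕ × ℕ, p i = .zed z := by
      filter_upwards [ht0] with i hi'
      cases hp : p i with
      | lam φ' a => rw [hp] at hi'; simp [Pay.map] at hi'
      | zed z => exact ⟨z, rfl⟩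
      | par p' => rw [hp] at hi'; simp [Pay.map] at hi'
      | pi => rw [hp] at hi'; simp [Pay.map] at hi'
      | rho n => rw [hp] at hi'; simp [Pay.map] at hi'
      | wr j u => rw [hp] at hi'; simp [Pay.map] at hi'
    have hch : ∀ i, ∃ z : ℕ × ℕ, (∃ z : ℕ × ℕ, p i = .zed z) → p i = .zed z := by
      intro i
      by_cases h : ∃ z : ℕ × ℕ, p i = .zed z
      · obtain ⟨z, hz'⟩ := h
        exact ⟨z, fun _ => hz'⟩
      · exact ⟨(0, 0), fun h' => absurd h' h⟩
    choose z hzz using hch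
    have hpz : ∀ᶠ i in (𝒱 : Filter ι), p i = .zed (z i) := hex.mono fun i hi' => hzz i hi'
    have hc1 := hcongr p (fun i => .zed (z i)) hpz hc
    have h2 := hmul .pi (fun i => .zed (z i)) (by intro j u h; cases h)
      (Eventually.of_forall fun i => by intro j u h; cases h) hc1
    obtain ⟨a1, ha1⟩ : EC 𝒱 (fun i => (z i).1) := kill_lam hz m hm e he hi 𝒱 _ h2
    have h3 := hmul (.rho a1) (fun i => .zed (z i)) (by intro j u h; cases h)
      (Eventually.of_forall fun i => by intro j u h; cases h) hc1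
    obtain ⟨k1, hk1⟩ : EC 𝒱 (fun i => if (z i).1 = a1 then (z i).2 else 0) :=
      kill_lam hz m hm e he hi 𝒱 _ h3
    refine ⟨.zed (a1, k1), ?_⟩
    filter_upwards [hpz, ha1, hk1] with i h1 h4 h5
    rw [if_pos h4] at h5
    rw [h1]
    congr 1
    exact Prod.ext h4 h5
  · refine ⟨.par p0, ?_⟩
    filter_upwards [ht0] with i hi'
    cases hp : p i <;> rw [hp] at hi' <;> simp_all [Pay.map]
  · refine ⟨.pi, ?_⟩
    filter_upwards [ht0] with i hi'
    cases hp : p i <;> rw [hp] at hi' <;> simp_all [Pay.map]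
  · refine ⟨.rho n0, ?_⟩
    filter_upwards [ht0] with i hi'
    cases hp : p i <;> rw [hp] at hi' <;> simp_all [Pay.map]
  · refine ⟨.wr j0 u0, ?_⟩
    filter_upwards [ht0] with i hi'
    cases hp : p i <;> rw [hp] at hi' <;> simp_all [Pay.map]

end Pool.Agent.Work.MP_0181e9_al
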