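import Pool.Agent.Work.MP_0181e9_al.Anchor
import Pool.Agent.Work.MP_0181e9_al.Extract
import Pool.Agent.Work.MP_0181e9_al.Kill

/-!
# `X` is closed in zero-dimensional semigroups
-/

set_option autoImplicit false

namespace Pool.Agent.Work.MP_0181e9_al

open Filter Topology

universe u v w

/-- Lists of a fixed length whose entries are eventually constant are eventually constant. -/
theorem ec_list {ι : Type v} {α : Type w} (𝒱 : Ultrafilter ι) (x : ι → List α) (N : ℕ)
    (hN : ∀ᶠ i in (𝒱 : Filter ι), (x i).length = N)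
    (h : ∀ n < N, EC 𝒱 fun i => (x i)[n]?) : EC 𝒱 x := by
  have h2 : ∀ n : ℕ, EC 𝒱 fun i => (x i)[n]? := by
    intro n
    by_cases hn : n < N
    · exact h n hn
    · refine ⟨none, hN.mono fun i hi => ?_⟩
      exact List.getElem?_eq_none (by omega)
  choose c hc using h2
  have h3 : ∀ᶠ i in (𝒱 : Filter ι), ∀ n < N, (x i)[n]? = c n := by
    have : ∀ᶠ i in (𝒱 : Filter ι), ∀ n ∈ Finset.range N, (x i)[n]? = c n := by
      rw [Filter.eventually_all_finset]
      exact fun n _ => hc n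
    exact this.mono fun i hi n hn => hi n (Finset.mem_range.2 hn)
  have h4 := h3.and hN
  obtain ⟨i0, hi0⟩ := h4.exists
  refine ⟨x i0, h4.mono fun i hi => ?_⟩
  apply List.ext_getElem?
  intro n
  by_cases hn : n < N
  · rw [hi.1 n hn, hi0.1 n hn]
  · rw [List.getElem?_eq_none (by omega), List.getElem?_eq_none (by omega)]

theorem XX_closed : TzSClosed.{u} XX := by
  intro Y _ _ _ _ h hz hd
  -- a value acting freely
  have hfree := fun l => v_free (Q := QT) (.pi, .nil) l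
  apply isClosed_range_of
  intro 𝒱 hc
  -- the ideal or the semigroup
  rcases 𝒱.em (fun x : XX => ∃ s, x = Ext.inS (tyw ℕ (ℕ × ℕ)) s) with hS | hI
  · -- the part of `S`
    have hs : ∃ s : XX → SW ℕ (ℕ × ℕ), ∀ᶠ x in (𝒱 : Filter XX), x = Ext.inS (tyw ℕ (ℕ × ℕ)) (s x) := by
      classical
      refine ⟨fun x => if hx : ∃ s, x = Ext.inS (tyw ℕ (ℕ × ℕ)) s then hx.choose else 1, hS.mono fun x hx => ?_⟩
      have hx' : ∃ s, x = Ext.inS (tyw ℕ (ℕ × ℕ)) s := hx
      simp only [dif_pos hx']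
      exact hx'.choose_spec
    obtain ⟨s, hs⟩ := hs
    suffices H : EC 𝒱 s by
      obtain ⟨s0, hs0⟩ := H
      exact ⟨Ext.inS (tyw ℕ (ℕ × ℕ)) s0, (hs.and hs0).mono fun x hx => by rw [hx.1, hx.2]⟩
    have hc2 : Cv 𝒱 fun x => h (Ext.inS (tyw ℕ (ℕ × ℕ)) (s x)) := by
      obtain ⟨y, hy⟩ := hc
      exact ⟨y, hy.congr' (hs.mono fun x hx => congrArg h hx)⟩
    obtain ⟨t, ht⟩ := anchor_S (tyw ℕ (ℕ × ℕ)) _ hfree h hd 𝒱 s hc2
    -- it suffices to treat the positions
    suffices H : EC 𝒱 fun x => (s x).1 by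
      obtain ⟨w, hw⟩ := H
      obtain ⟨x0, hx0⟩ := hw.exists
      exact ⟨s x0, hw.mono fun x hx => Subtype.ext (hx.trans hx0.symm)⟩
    have hshape : ∀ᶠ x in (𝒱 : Filter XX), lty (s x).1 = t.1 :=
      ht.mono fun x hx => congrArg Subtype.val hx
    apply ec_list 𝒱 _ t.1.length
    · exact hshape.mono fun x hx => by rw [← hx, lty, List.length_map]
    intro n hn
    have hget : ∀ᶠ x in (𝒱 : Filter XX), (s x).1[n]?.map (lmap ty) = some t.1[n] := by
      refine hshape.mono fun x hx => ?_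
      rw [← List.getElem?_map]
      change (lty (s x).1)[n]? = _
      rw [hx, List.getElem?_eq_getElem hn]
    rcases htn : t.1[n] with a | q'
    · -- operator
      refine ⟨some (Sum.inl ()), hget.mono fun x hx => ?_⟩
      rw [htn] at hx
      simp only
      rcases hxn : (s x).1[n]? with _ | y
      · rw [hxn] at hx; simp at hx
      · rw [hxn] at hx
        rw [Option.map_some, Option.some.injEq] at hx
        rw [(lmap_inl_iff y).1 hx]
    · -- value
      have hq : ∃ q : XX → QN, ∀ᶠ x in (𝒱 : Filter XX), (s x).1[n]? = some (Sum.inr (q x)) ∧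
          ty (q x) = q' := by
        classical
        have h1 : ∀ᶠ x in (𝒱 : Filter XX), ∃ q : QN, (s x).1[n]? = some (Sum.inr q) ∧ ty q = q' := by
          refine hget.mono fun x hx => ?_
          rw [htn] at hx
          rcases hxn : (s x).1[n]? with _ | y
          · rw [hxn] at hx; simp at hx
          · rw [hxn, Option.map_some, Option.some.injEq] at hx
            obtain ⟨q, rfl, hq⟩ := (lmap_inr_iff y q').1 hx
            exact ⟨q, rfl, hq⟩
        refine ⟨fun x => if hx : ∃ q : QN, (s x).1[n]? = some (Sum.inr q) ∧ ty q = q' then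
          hx.choose else (.pi, .nil), h1.mono fun x hx => ?_⟩
        simp only [dif_pos hx]
        exact hx.choose_spec
      obtain ⟨q, hq⟩ := hq
      suffices H : EC 𝒱 q by
        obtain ⟨q0, hq0⟩ := H
        exact ⟨some (Sum.inr q0), (hq.and hq0).mono fun x hx => by simp only; rw [hx.1.1, hx.2]⟩
      by_cases hw : ∃ j u, q' = (.wr j u, .nil)
      · -- an active writer
        obtain ⟨j, u, rfl⟩ := hw
        refine ⟨(.wr j u, .nil), hq.mono fun x hx => ?_⟩
        have h2 := hx.2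
        rcases hqx : q x with ⟨z, w⟩
        rw [hqx] at h2
        cases z <;> simp_all [ty, AHom.mhom, qmap, Pay.map]
      · push Not at hw
        obtain ⟨u, v, huv⟩ := extract t n q' (by rw [List.getElem?_eq_getElem hn, htn]) hw
        -- the payload converges
        have hc3 : Cv 𝒱 fun x => h (Ext.inS (tyw ℕ (ℕ × ℕ)) (Wd.v ((q x).1, Code.nil))) := by
          obtain ⟨y, hy⟩ := Cv.mul 𝒱 (Cv.mul 𝒱 (Cv.const 𝒱 (h (Ext.inS (tyw ℕ (ℕ × ℕ)) u))) hc2)
            (Cv.const 𝒱 (h (Ext.inS (tyw ℕ (ℕ × ℕ)) v)))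
          refine ⟨y, hy.congr' ((ht.and hq).mono fun x hx => ?_)⟩
          simp only
          rw [← map_mul, ← map_mul, Ext.inS_mul, Ext.inS_mul, huv (s x) hx.1 (q x) hx.2.1]
        have hk := kill hz (fun a b => h (Ext.inS (tyw ℕ (ℕ × ℕ)) Wd.f) * (a * b))
          (continuous_const.mul (continuous_fst.mul continuous_snd))
          (fun z => h (Ext.inS (tyw ℕ (ℕ × ℕ)) (Wd.v (z, Code.nil)))) (by
            intro x z hx hz'
            rw [← map_mul, ← map_mul, Ext.inS_mul, Ext.inS_mul, Wd.f_v_v, op_def]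
            congr 3
            cases x <;> cases z <;> simp_all [qop, opw, pass]) (by
            intro x
            obtain ⟨G, hG, hG'⟩ := hd.2 (Ext.inS (tyw ℕ (ℕ × ℕ)) (Wd.v (x, Code.nil)))
            refine ⟨G, hG, fun x' => ?_⟩
            rw [hG', (Ext.inS_injective (tyw ℕ (ℕ × ℕ))).eq_iff, Wd.v_injective.eq_iff, Prod.mk.injEq,
              and_iff_left rfl]) 𝒱 (fun x => (q x).1) hc3 (by
            refine ⟨q'.1, hq.mono fun x hx => ?_⟩
            rw [← hx.2]
            rfl)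
        obtain ⟨z0, hz0⟩ := hk
        refine ⟨(z0, q'.2), (hz0.and hq).mono fun x hx => ?_⟩
        refine Prod.ext hx.1 ?_
        rw [← hx.2.2]
        rfl
  · -- the ideal
    have hI2 : ∀ᶠ x in (𝒱 : Filter XX), ∃ p : SW Unit Unit × (SW Unit Unit →₀ ZMod 2) × SW Unit Unit,
        x = Ext.inI (tyw ℕ (ℕ × ℕ)) p.1 p.2.1 p.2.2 := by
      refine hI.mono fun x hx => ?_
      rcases Ext.cases' (tyw ℕ (ℕ × ℕ)) x with h1 | ⟨l, k, r, h1⟩
      · exact absurd h1 hx
      · exact ⟨(l, k, r), h1⟩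
    have hs : ∃ s : XX → SW Unit Unit × (SW Unit Unit →₀ ZMod 2) × SW Unit Unit,
        ∀ᶠ x in (𝒱 : Filter XX), x = Ext.inI (tyw ℕ (ℕ × ℕ)) (s x).1 (s x).2.1 (s x).2.2 := by
      classical
      refine ⟨fun x => if hx : ∃ p : SW Unit Unit × (SW Unit Unit →₀ ZMod 2) × SW Unit Unit,
        x = Ext.inI (tyw ℕ (ℕ × ℕ)) p.1 p.2.1 p.2.2 then hx.choose else (1, 0, 1), hI2.mono fun x hx => ?_⟩
      simp only [dif_pos hx]
      exact hx.choose_spec
    obtain ⟨s, hs⟩ := hs
    have hc2 : Cv 𝒱 fun x => h (Ext.inI (tyw ℕ (ℕ × ℕ)) (s x).1 (s x).2.1 (s x).2.2) := by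
      obtain ⟨y, hy⟩ := hc
      exact ⟨y, hy.congr' (hs.mono fun x hx => congrArg h hx)⟩
    obtain ⟨⟨l, hl⟩, ⟨k, hk⟩, ⟨r, hr⟩⟩ := anchor_ideal (tyw ℕ (ℕ × ℕ)) _ hfree h hd 𝒱 _ _ _ hc2
    refine ⟨Ext.inI (tyw ℕ (ℕ × ℕ)) l k r, (hs.and (hl.and (hk.and hr))).mono fun x hx => ?_⟩
    obtain ⟨h1, h2, h3, h4⟩ := hx
    simp only at h2 h3 h4
    rw [h2, h3, h4] at h1
    exact h1

end Pool.Agent.Work.MP_0181e9_al
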