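import Pool.Agent.Work.MP_0181e9_al.Conv

/-!
# A colouring lemma
-/

set_option autoImplicit false

namespace Pool.Agent.Work.MP_0181e9_al

open Filter Topology

universe u v w

private theorem le_iterate (g : ℕ → ℕ) (hg : ∀ a, a < g a) (k a : ℕ) : a + k ≤ g^[k] a := by
  induction k generalizing a with
  | zero => simp
  | succ k ih =>
    rw [Function.iterate_succ_apply]
    have := ih (g a)
    have := hg a
    omega

private theorem exists_iterate (g : ℕ → ℕ) (hg : ∀ a, a < g a) (n a : ℕ) :
    ∃ k, n ≤ g^[k] a :=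
  ⟨n, by have := le_iterate g hg n a; omega⟩

/-- An ultrafilter contains a set disjoint from its image under a progressive function. -/
theorem colour (U : Ultrafilter ℕ) (g : ℕ → ℕ) (hg : ∀ a, a < g a) :
    ∃ S ∈ (U : Filter ℕ), ∀ a ∈ S, g a ∉ S := by
  classical
  let k : ℕ → ℕ → ℕ := fun n a => Nat.find (exists_iterate g hg n a)
  have hk : ∀ n a, a < n → k n a = k n (g a) + 1 := by
    intro n a h
    have h2 : ∃ j, n ≤ g^[j + 1] a := by
      obtain ⟨j, hj⟩ := exists_iterate g hg n (g a)
      exact ⟨j, by rwa [Function.iterate_succ_apply]⟩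
    have h0 : ¬ n ≤ g^[0] a := by
      simp only [Function.iterate_zero, id_eq]
      omega
    have h3 := Nat.find_comp_succ (exists_iterate g hg n a) h2 h0
    have h4 : Nat.find h2 = Nat.find (exists_iterate g hg n (g a)) := by
      congr 1
    change Nat.find (exists_iterate g hg n a) = Nat.find (exists_iterate g hg n (g a)) + 1
    rw [h3, h4]
  let c : ℕ → Prop := fun a => ∀ᶠ n in (hyperfilter ℕ : Filter ℕ), Odd (k n a)
  have hc : ∀ a, c (g a) ↔ ¬ c a := by
    intro a
    have h1 : ∀ᶠ n in (hyperfilter ℕ : Filter ℕ), a < n :=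
      (Nat.hyperfilter_le_atTop) (eventually_gt_atTop a)
    change (∀ᶠ n in (hyperfilter ℕ : Filter ℕ), Odd (k n (g a))) ↔
      ¬ (∀ᶠ n in (hyperfilter ℕ : Filter ℕ), Odd (k n a))
    rw [← Ultrafilter.eventually_not]
    constructor
    · intro h
      filter_upwards [h1, h] with n h2 h3
      rw [hk n a h2]
      rw [Nat.odd_add_one]
      simpa using h3
    · intro h
      filter_upwards [h1, h] with n h2 h3
      rw [hk n a h2, Nat.odd_add_one] at h3
      simpa using h3
  rcases U.mem_or_compl_mem {a | c a} with h | h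
  · exact ⟨_, h, fun a ha hga => (hc a).1 hga ha⟩
  · exact ⟨_, h, fun a ha hga => hga ((hc a).2 ha)⟩

end Pool.Agent.Work.MP_0181e9_al
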