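import Pool.Agent.Work.MP_0181e9_al.Defs

/-!
# Convergence along ultrafilters
-/

set_option autoImplicit false

namespace Pool.Agent.Work.MP_0181e9_al

open Filter Topology

universe u v w

/-- Eventually constant. -/
def EC {ι : Type v} {X : Type w} (𝒱 : Ultrafilter ι) (x : ι → X) : Prop :=
  ∃ x0, ∀ᶠ i in (𝒱 : Filter ι), x i = x0

/-- Convergent. -/
def Cv {ι : Type v} {Y : Type u} [TopologicalSpace Y] (𝒱 : Ultrafilter ι) (x : ι → Y) : Prop :=
  ∃ y, Tendsto x (𝒱 : Filter ι) (𝓝 y)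

section

variable {ι : Type v} {X : Type w} {Y : Type u} [TopologicalSpace Y] (𝒱 : Ultrafilter ι)

theorem Cv.const (y : Y) : Cv 𝒱 (fun _ => y) := ⟨y, tendsto_const_nhds⟩

theorem Cv.mul [Mul Y] [ContinuousMul Y] {x z : ι → Y} (hx : Cv 𝒱 x) (hz : Cv 𝒱 z) :
    Cv 𝒱 (fun i => x i * z i) := by
  obtain ⟨a, ha⟩ := hx
  obtain ⟨b, hb⟩ := hz
  exact ⟨a * b, ha.mul hb⟩

theorem EC.const (x : X) : EC 𝒱 (fun _ => x) := ⟨x, Eventually.of_forall fun _ => rfl⟩

variable {𝒱} in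
theorem EC.comp {X' : Type*} {x : ι → X} (hx : EC 𝒱 x) (g : X → X') : EC 𝒱 (fun i => g (x i)) := by
  obtain ⟨a, ha⟩ := hx
  exact ⟨g a, ha.mono fun i hi => congrArg g hi⟩

/-- A convergent ultrafilter limit that is an isolated point of the image. -/
theorem ev_of_isolated {h : X → Y} {x : ι → X} {x0 : X}
    (hi : ∃ G : Set Y, IsOpen G ∧ ∀ x', h x' ∈ G ↔ x' = x0)
    (hx : Tendsto (fun i => h (x i)) (𝒱 : Filter ι) (𝓝 (h x0))) :
    ∀ᶠ i in (𝒱 : Filter ι), x i = x0 := by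
  obtain ⟨G, hG, hG'⟩ := hi
  have := hx.eventually (hG.mem_nhds ((hG' x0).2 rfl))
  exact this.mono fun i hi => (hG' _).1 hi

variable {𝒱} in
/-- Functions with finitely many values are eventually constant. -/
theorem EC.of_finite {x : ι → X} (s : Set X) (hs : s.Finite)
    (h : ∀ᶠ i in (𝒱 : Filter ι), x i ∈ s) : EC 𝒱 x := by
  have h' : ∀ᶠ i in (𝒱 : Filter ι), ∃ a ∈ s, x i = a := h.mono fun i hi => ⟨_, hi, rfl⟩
  have := (Ultrafilter.eventually_exists_mem_iff hs).1 h'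
  obtain ⟨a, _, ha⟩ := this
  exact ⟨a, ha⟩

end

theorem isClosed_range_of {X : Type w} {Y : Type u} [TopologicalSpace Y] [T2Space Y] (h : X → Y)
    (H : ∀ 𝒱 : Ultrafilter X, Cv 𝒱 h → EC 𝒱 (fun x => x)) : IsClosed (Set.range h) := by
  rw [← closure_subset_iff_isClosed]
  intro y hy
  have hne : (comap h (𝓝 y)).NeBot := by
    rw [comap_neBot_iff]
    intro t ht
    obtain ⟨_, hz, x, rfl⟩ := mem_closure_iff_nhds.1 hy t ht
    exact ⟨x, hz⟩
  have ht : Tendsto h (Ultrafilter.of (comap h (𝓝 y)) : Filter X) (𝓝 y) :=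
    (tendsto_comap).mono_left (Ultrafilter.of_le _)
  obtain ⟨x0, hx0⟩ := H _ ⟨y, ht⟩
  refine ⟨x0, ?_⟩
  have h1 : Tendsto h (Ultrafilter.of (comap h (𝓝 y)) : Filter X) (𝓝 (h x0)) :=
    tendsto_const_nhds.congr' (hx0.mono fun x hx => (congrArg h hx).symm)
  exact tendsto_nhds_unique h1 ht

end Pool.Agent.Work.MP_0181e9_al
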