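import Pool.Agent.Work.MP_0181e9_al.Words

/-!
# The magma and the semigroup `X`
-/

set_option autoImplicit false

namespace Pool.Agent.Work.MP_0181e9_al

open Filter

/-- Finite binary codes. -/
inductive Code where
  | nil : Code
  | cons : Bool → Code → Code

/-- Pairs of functions with `|f - g| ≤ 1` almost everywhere for the hyperfilter. -/
def Param : Type :=
  {p : (ℕ → ℕ) × (ℕ → ℕ) // ∀ᶠ a in (hyperfilter ℕ : Filter ℕ), p.1 a ≤ p.2 a + 1 ∧
    p.2 a ≤ p.1 a + 1}

/-- Payloads: `lam φ a` and `zed z` carry the variable part, the others are constants. -/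
inductive Pay (L Z : Type) where
  | lam : Option Param → L → Pay L Z
  | zed : Z → Pay L Z
  | par : Param → Pay L Z
  | pi : Pay L Z
  | rho : ℕ → Pay L Z
  | wr : Bool → Code → Pay L Z

/-- The operations on the two sorts of variables. -/
class Alg (L Z : Type) where
  zeta : Param → L → L → Z
  kap : Z → L → L
  pj : Z → L
  rh : ℕ → Z → L
  zero : L

section

variable {L Z : Type} [Alg L Z]

/-- The main operation on payloads. -/
def Pay.main : Pay L Z → Pay L Z → Pay L Z
  | .par p, .lam none a => .lam (some p) a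
  | .lam (some p) a, .lam none b => .zed (Alg.zeta p a b)
  | .zed z, .lam none b => .lam none (Alg.kap z b)
  | .pi, .zed z => .lam none (Alg.pj z)
  | .pi, .lam (some _) a => .lam none a
  | .rho n, .zed z => .lam none (Alg.rh n z)
  | _, _ => .lam none (Alg.zero Z)

/-- The values of the magma. -/
abbrev Qv (L Z : Type) : Type := Pay L Z × Code

/-- The action of a writer. -/
def wract (j : Bool) (u : Code) (q : Qv L Z) : Qv L Z :=
  match q.2 with
  | .nil => (q.1, u)
  | .cons b c => if b = j then (q.1, u) else (q.1, c)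

/-- The passive part of the operation. -/
def pass : Qv L Z → Qv L Z → Qv L Z
  | (x, .nil), (z, .nil) => (Pay.main x z, .nil)
  | (x, .cons _ w), (_, .nil) => (x, w)
  | (_, .nil), (z, .cons _ v) => (z, v)
  | (x, .cons a w), (z, .cons b v) => if a = b then (x, w) else (z, v)

/-- The second test. -/
def opw : Qv L Z → Qv L Z → Qv L Z
  | (.wr j u, .nil), q => wract j u q
  | p, q => pass p q

/-- The operation of the magma. -/
def qop : Qv L Z → Qv L Z → Qv L Z
  | p, (.wr j u, .nil) => wract j u p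
  | p, q => opw p q

instance : Mag (Qv L Z) := ⟨qop⟩

theorem op_def (p q : Qv L Z) : Mag.op p q = qop p q := rfl

end

/-! ## Homomorphisms -/

/-- Homomorphisms of the two-sorted algebras. -/
structure AHom (L Z L' Z' : Type) [Alg L Z] [Alg L' Z'] where
  toL : L → L'
  toZ : Z → Z'
  zeta : ∀ p a b, toZ (Alg.zeta p a b) = Alg.zeta p (toL a) (toL b)
  kap : ∀ z b, toL (Alg.kap z b) = Alg.kap (toZ z) (toL b)
  pj : ∀ z, toL (Alg.pj z) = Alg.pj (toZ z)
  rh : ∀ n z, toL (Alg.rh n z) = Alg.rh n (toZ z)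
  zero : toL (Alg.zero Z) = Alg.zero Z'

section

variable {L Z L' Z' L'' Z'' : Type}

/-- The map on payloads. -/
def Pay.map (α : L → L') (β : Z → Z') : Pay L Z → Pay L' Z'
  | .lam φ a => .lam φ (α a)
  | .zed z => .zed (β z)
  | .par p => .par p
  | .pi => .pi
  | .rho n => .rho n
  | .wr j u => .wr j u

/-- The map on values. -/
def qmap (α : L → L') (β : Z → Z') (q : Qv L Z) : Qv L' Z' := (Pay.map α β q.1, q.2)

theorem qmap_qmap (α : L → L') (β : Z → Z') (α' : L' → L'') (β' : Z' → Z'') (q : Qv L Z) :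
    qmap α' β' (qmap α β q) = qmap (α' ∘ α) (β' ∘ β) q := by
  obtain ⟨x, w⟩ := q
  cases x <;> rfl

theorem qmap_injective {α : L → L'} {β : Z → Z'} (hα : Function.Injective α)
    (hβ : Function.Injective β) : Function.Injective (qmap α β) := by
  rintro ⟨x, w⟩ ⟨z, v⟩ h
  simp only [qmap, Prod.mk.injEq] at h
  obtain ⟨h, rfl⟩ := h
  cases x <;> cases z <;> simp_all [Pay.map, hα.eq_iff, hβ.eq_iff]

variable [Alg L Z] [Alg L' Z']

theorem map_main (F : AHom L Z L' Z') (x z : Pay L Z) :
    Pay.map F.toL F.toZ (Pay.main x z) =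
      Pay.main (Pay.map F.toL F.toZ x) (Pay.map F.toL F.toZ z) := by
  rcases x with ⟨_ | φ, a⟩ | z' | p | _ | n | ⟨j, u⟩ <;>
    rcases z with ⟨_ | ψ, b⟩ | z'' | p' | _ | n' | ⟨j', u'⟩ <;>
    simp [Pay.map, Pay.main, F.zeta, F.kap, F.pj, F.rh, F.zero]

theorem map_pass (F : AHom L Z L' Z') (p q : Qv L Z) :
    qmap F.toL F.toZ (pass p q) = pass (qmap F.toL F.toZ p) (qmap F.toL F.toZ q) := by
  obtain ⟨x, w⟩ := p
  obtain ⟨z, v⟩ := q
  cases w <;> cases v <;> simp only [pass, qmap, map_main]
  split_ifs <;> rfl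

theorem map_wract (α : L → L') (β : Z → Z') (j : Bool) (u : Code) (q : Qv L Z) :
    qmap α β (wract j u q) = wract j u (qmap α β q) := by
  obtain ⟨z, v⟩ := q
  cases v <;> simp only [wract, qmap]
  split_ifs <;> rfl

theorem map_opw (F : AHom L Z L' Z') (p q : Qv L Z) :
    qmap F.toL F.toZ (opw p q) = opw (qmap F.toL F.toZ p) (qmap F.toL F.toZ q) := by
  obtain ⟨x, w⟩ := p
  cases x <;> cases w <;> first | exact map_pass F _ _ | exact map_wract _ _ _ _ _

theorem map_qop (F : AHom L Z L' Z') (p q : Qv L Z) :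
    qmap F.toL F.toZ (qop p q) = qop (qmap F.toL F.toZ p) (qmap F.toL F.toZ q) := by
  obtain ⟨z, v⟩ := q
  cases z <;> cases v <;> first | exact map_opw F _ _ | exact map_wract _ _ _ _ _

/-- The induced homomorphism of magmas. -/
def AHom.mhom (F : AHom L Z L' Z') : MHom (Qv L Z) (Qv L' Z') where
  toFun := qmap F.toL F.toZ
  map_op := map_qop F

end

/-! ## The three algebras -/

/-- The discrete algebra. -/
instance algN : Alg ℕ (ℕ × ℕ) where
  zeta p a b := if a < b then (a, p.1.1 a) else (b, p.1.2 b)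
  kap z b := if z.1 < b ∧ z.2 = 2 ^ b then 1 else 0
  pj z := z.1
  rh n z := if z.1 = n then z.2 else 0
  zero := 0

/-- The algebra of types. -/
instance algU : Alg Unit Unit where
  zeta _ _ _ := ()
  kap _ _ := ()
  pj _ := ()
  rh _ _ := ()
  zero := ()

/-- The homomorphism to types. -/
def tyHom (L Z : Type) [Alg L Z] : AHom L Z Unit Unit where
  toL _ := ()
  toZ _ := ()
  zeta _ _ _ := rfl
  kap _ _ := rfl
  pj _ := rfl
  rh _ _ := rfl
  zero := rfl

/-- The values of the discrete magma. -/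
abbrev QN : Type := Qv ℕ (ℕ × ℕ)

/-- The types. -/
abbrev QT : Type := Qv Unit Unit

/-- The semigroup of words over a two-sorted algebra. -/
abbrev SW (L Z : Type) : Type := Wd (Qv L Z)

/-- The type homomorphism on words. -/
def tyw (L Z : Type) [Alg L Z] : SW L Z →* SW Unit Unit := Wd.map (tyHom L Z).mhom

/-- The semigroup `X`. -/
abbrev XX : Type := Ext (tyw ℕ (ℕ × ℕ))

end Pool.Agent.Work.MP_0181e9_al
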