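import Pool.Agent.Work.MP_0181e9_al.TopT2
import Pool.Agent.Work.MP_0181e9_al.Colour

/-!
# The operations of the non-discrete model are continuous
-/

set_option autoImplicit false

namespace Pool.Agent.Work.MP_0181e9_al

open Filter Topology

universe u v w

private theorem ev_gt (n : ℕ) : ∀ᶠ a in (hyperfilter ℕ : Filter ℕ), n < a := by
  have h : ∀ᶠ a in (cofinite : Filter ℕ), n < a := by
    rw [Nat.cofinite_eq_atTop]
    exact eventually_gt_atTop n
  exact hyperfilter_le_cofinite h

private theorem ca_iso {X Y : Type} [TopologicalSpace X] [TopologicalSpace Y] (f : X → Y) (x : X)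
    (h : IsOpen {x}) : ContinuousAt f x := by
  have : 𝓝 x = pure x := (isOpen_singleton_iff_nhds_eq_pure x).1 h
  rw [ContinuousAt, this]
  exact tendsto_pure_nhds f x

/-- Continuity at a point from local constancy on a product of open sets. -/
private theorem ca_const {X Y W : Type} [TopologicalSpace X] [TopologicalSpace Y]
    [TopologicalSpace W] (f : X × Y → W) (x : X) (y : Y) (s : Set X) (t : Set Y)
    (hs : IsOpen s) (ht : IsOpen t) (hx : x ∈ s) (hy : y ∈ t)
    (h : ∀ a ∈ s, ∀ b ∈ t, f (a, b) = f (x, y)) : ContinuousAt f (x, y) := by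
  have h1 : ∀ᶠ p in 𝓝 (x, y), f p = f (x, y) := by
    have h2 : s ×ˢ t ∈ 𝓝 (x, y) := (hs.prod ht).mem_nhds ⟨hx, hy⟩
    filter_upwards [h2] with p hp
    exact h p.1 hp.1 p.2 hp.2
  exact (continuousAt_const (y := f (x, y))).congr (h1.mono fun p hp => hp.symm)

private theorem pow_gap (a b b' : ℕ) (hb : a < b) (h : b < b') (k : ℕ)
    (h1 : 2 ^ b ≤ k + a ∧ k ≤ 2 ^ b + a) (h2 : 2 ^ b' ≤ k + a ∧ k ≤ 2 ^ b' + a) : False := by
  have h3 : 2 ^ (b + 1) ≤ 2 ^ b' := Nat.pow_le_pow_right (by norm_num) h
  have h4 : b < 2 ^ b := Nat.lt_two_pow_self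
  rw [pow_succ] at h3
  have h5 : 2 ^ (a + 1) ≤ 2 ^ b := Nat.pow_le_pow_right (by norm_num) hb
  have h6 : a < 2 ^ a := Nat.lt_two_pow_self
  rw [pow_succ] at h5
  omega

private theorem kap_inf (f : ℕ → ℕ) :
    ContinuousAt (fun x : Zh × Lh => (Alg.kap x.1 x.2 : Lh)) (Zh.mk f, Lh.inf) := by
  classical
  have hun : ∀ a b b' : ℕ, a < b → a < b' → (2 ^ b ≤ f a + a ∧ f a ≤ 2 ^ b + a) →
      (2 ^ b' ≤ f a + a ∧ f a ≤ 2 ^ b' + a) → b = b' := by
    intro a b b' hb hb' h1 h2
    rcases lt_trichotomy b b' with h | h | h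
    · exact (pow_gap a b b' hb h _ h1 h2).elim
    · exact h
    · exact (pow_gap a b' b hb' h _ h2 h1).elim
  let P : ℕ → ℕ → Prop := fun a b => a < b ∧ 2 ^ b ≤ f a + a ∧ f a ≤ 2 ^ b + a
  let g : ℕ → ℕ := fun a => if h : ∃ b, P a b then h.choose else a + 1
  have hg : ∀ a, a < g a := by
    intro a
    by_cases h : ∃ b, P a b
    · have : g a = h.choose := dif_pos h
      rw [this]
      exact h.choose_spec.1
    · have : g a = a + 1 := dif_neg h
      omega
  have hgu : ∀ a b, P a b → g a = b := by
    intro a b hb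
    have h : ∃ b, P a b := ⟨b, hb⟩
    have h1 : g a = h.choose := dif_pos h
    rw [h1]
    exact hun a _ _ h.choose_spec.1 hb.1 h.choose_spec.2 hb.2
  obtain ⟨S, hS, hSg⟩ := colour (hyperfilter ℕ) g hg
  let s : Set Zh := {z | (∀ f', z = Zh.mk f' → fsetoid.r f' f) ∧
    ∀ a k, z = Zh.fin (a, k) → a ∈ S ∧ k ≤ f a + a ∧ f a ≤ k + a}
  let W : Set Lh := {x | ∀ b, x = Lh.fin b → b ∈ S}
  have hs : IsOpen s := by
    rw [Zh.isOpen_iff]
    intro f' hf' n
    obtain ⟨m, hm⟩ := hf'.1 f' rfl
    filter_upwards [hm, hS, ev_gt (n + m)] with a h1 h2 h3 k hk hk'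
    refine ⟨fun f'' h => ?_, fun a' k' h => ?_⟩
    · cases h
    · cases h
      exact ⟨h2, by omega, by omega⟩
  have hW : IsOpen W := by
    rw [Lh.isOpen_iff]
    intro _
    filter_upwards [hS] with b hb b' h
    cases h
    exact hb
  refine ca_const _ _ _ s W hs hW ?_ ?_ ?_
  · refine ⟨fun f' h => ?_, fun a k h => by cases h⟩
    have h1 : (Quotient.mk fsetoid f) = Quotient.mk fsetoid f' := by
      injection h
    have h2 := Quotient.exact h1
    exact fsetoid.symm h2
  · intro b h
    cases h
  · intro z hz x hx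
    show (Alg.kap z x : Lh) = Lh.fin 0
    rcases z with ⟨a, k⟩ | c
    · rcases x with b | _
      · show Lh.fin (if a < b ∧ k = 2 ^ b then 1 else 0) = Lh.fin 0
        rw [if_neg]
        rintro ⟨hab, hk⟩
        obtain ⟨h1, h2, h3⟩ := hz.2 a k rfl
        have h4 : b ∈ S := hx b rfl
        have h5 : g a = b := hgu a b ⟨hab, by omega, by omega⟩
        exact hSg a h1 (h5 ▸ h4)
      · rfl
    · rfl

instance : TopAlg Lh Zh where
  zeta := by
    intro p
    rw [continuous_iff_continuousAt]
    rintro ⟨_ | _, _ | _⟩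
    · rename_i a b
      apply ca_iso
      have := (Lh.isOpen_fin a).prod (Lh.isOpen_fin b)
      rwa [Set.singleton_prod_singleton] at this
    · rename_i a
      refine ca_const _ _ _ {Lh.fin a} {x | ∀ b, x = Lh.fin b → a < b} (Lh.isOpen_fin a) ?_ rfl
        ?_ ?_
      · rw [Lh.isOpen_iff]
        intro _
        filter_upwards [ev_gt a] with b hb b' h
        cases h
        exact hb
      · intro b h
        cases h
      · intro a' ha' x hx
        rw [Set.mem_singleton_iff] at ha'
        subst ha'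
        rcases x with b | _
        · show Zh.fin (if a < b then (a, p.1.1 a) else (b, p.1.2 b)) = Zh.fin (a, p.1.1 a)
          rw [if_pos (hx b rfl)]
        · rfl
    · rename_i b
      refine ca_const _ _ _ {x | ∀ a, x = Lh.fin a → b < a} {Lh.fin b} ?_ (Lh.isOpen_fin b)
        ?_ rfl ?_
      · rw [Lh.isOpen_iff]
        intro _
        filter_upwards [ev_gt b] with a ha a' h
        cases h
        exact ha
      · intro b h
        cases h
      · intro x hx b' hb'
        rw [Set.mem_singleton_iff] at hb'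
        subst hb'
        rcases x with a | _
        · show Zh.fin (if a < b then (a, p.1.1 a) else (b, p.1.2 b)) = Zh.fin (b, p.1.2 b)
          rw [if_neg (by have := hx a rfl; omega)]
        · rfl
    · intro s hs
      obtain ⟨t, hts, ht, hm⟩ := mem_nhds_iff.1 hs
      have hm' : Zh.mk p.1.1 ∈ t := hm
      have h1 := (Zh.isOpen_iff.1 ht) p.1.1 hm' 1
      have h2 := p.2
      let W : Set Lh := {x | ∀ a, x = Lh.fin a → (Zh.fin (a, p.1.1 a) ∈ t ∧
        Zh.fin (a, p.1.2 a) ∈ t)}
      have hW : IsOpen W := by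
        rw [Lh.isOpen_iff]
        intro _
        filter_upwards [h1, h2] with a ha1 ha2 a' h
        cases h
        exact ⟨ha1 _ (by omega) (by omega), ha1 _ (by omega) (by omega)⟩
      have hWi : Lh.inf ∈ W := fun a h => by cases h
      rw [mem_map]
      have h3 : W ×ˢ W ∈ 𝓝 (Lh.inf, Lh.inf) := (hW.prod hW).mem_nhds ⟨hWi, hWi⟩
      filter_upwards [h3] with x hx
      apply hts
      obtain ⟨x1, x2⟩ := x
      obtain ⟨hx1, hx2⟩ := hx
      rcases x1 with a | _ <;> rcases x2 with b | _
      · show Zh.fin (if a < b then (a, p.1.1 a) else (b, p.1.2 b)) ∈ t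
        split_ifs
        · exact (hx1 a rfl).1
        · exact (hx2 b rfl).2
      · exact (hx1 a rfl).1
      · exact (hx2 b rfl).2
      · exact hm'
  kap := by
    rw [continuous_iff_continuousAt]
    rintro ⟨⟨z⟩ | c, b | _⟩
    · apply ca_iso
      have := (Zh.isOpen_fin z).prod (Lh.isOpen_fin b)
      rwa [Set.singleton_prod_singleton] at this
    · refine ca_const _ _ _ {Zh.fin z} {x | ∀ b, x = Lh.fin b → z.2 < b} (Zh.isOpen_fin z) ?_ rfl
        ?_ ?_
      · rw [Lh.isOpen_iff]
        intro _
        filter_upwards [ev_gt z.2] with b hb b' h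
        cases h
        exact hb
      · intro b h
        cases h
      · intro z' hz' x hx
        rw [Set.mem_singleton_iff] at hz'
        subst hz'
        rcases x with b | _
        · show Lh.fin (if z.1 < b ∧ z.2 = 2 ^ b then 1 else 0) = Lh.fin 0
          rw [if_neg]
          rintro ⟨_, h⟩
          have h1 := hx b rfl
          have h2 : b < 2 ^ b := Nat.lt_two_pow_self
          omega
        · rfl
    · induction c using Quotient.inductionOn with
      | h f =>
      refine ca_const _ _ _ {x | ∀ z, x = Zh.fin z → b < z.1} {Lh.fin b} ?_ (Lh.isOpen_fin b)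
        ?_ rfl ?_
      · rw [Zh.isOpen_iff]
        intro _ _ n
        filter_upwards [ev_gt b] with a ha k _ _ z h
        cases h
        exact ha
      · intro z h
        cases h
      · intro x hx b' hb'
        rw [Set.mem_singleton_iff] at hb'
        subst hb'
        rcases x with z | _
        · show Lh.fin (if z.1 < b ∧ z.2 = 2 ^ b then 1 else 0) = Lh.fin 0
          rw [if_neg]
          rintro ⟨h, _⟩
          have h1 := hx z rfl
          omega
        · rfl
    · induction c using Quotient.inductionOn with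
      | h f => exact kap_inf f
  pj := by
    rw [continuous_def]
    intro s hs
    rw [Zh.isOpen_iff]
    intro f hf n
    have h1 := (Lh.isOpen_iff.1 hs) hf
    filter_upwards [h1] with a ha k _ _
    exact ha
  rh := by
    intro m
    rw [continuous_def]
    intro s hs
    rw [Zh.isOpen_iff]
    intro f hf n
    have h1 : Lh.fin 0 ∈ s := hf
    filter_upwards [ev_gt m] with a ha k _ _
    show Lh.fin (if a = m then k else 0) ∈ s
    rw [if_neg (by omega)]
    exact h1

end Pool.Agent.Work.MP_0181e9_al
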