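import Pool.Agent.Work.MP_0181e9_al.Conv

/-!
# The non-discrete model: definitions
-/

set_option autoImplicit false

namespace Pool.Agent.Work.MP_0181e9_al

open Filter Topology

/-! ## The two spaces -/

/-- The indices with a point at infinity. -/
inductive Lh where
  | fin : ℕ → Lh
  | inf : Lh

/-- Bounded distance almost everywhere. -/
def fsetoid : Setoid (ℕ → ℕ) where
  r f g := ∃ n : ℕ, ∀ᶠ a in (hyperfilter ℕ : Filter ℕ), f a ≤ g a + n ∧ g a ≤ f a + n
  iseqv := by
    refine ⟨fun f => ⟨0, Eventually.of_forall fun a => ⟨le_rfl, le_rfl⟩⟩, ?_, ?_⟩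
    · rintro f g ⟨n, hn⟩
      exact ⟨n, hn.mono fun a h => ⟨h.2, h.1⟩⟩
    · rintro f g k ⟨n, hn⟩ ⟨m, hm⟩
      refine ⟨n + m, ?_⟩
      filter_upwards [hn, hm] with a h1 h2
      omega

/-- The pairs with the classes of functions as points at infinity. -/
inductive Zh where
  | fin : ℕ × ℕ → Zh
  | cls : Quotient fsetoid → Zh

/-- The class of a function. -/
def Zh.mk (f : ℕ → ℕ) : Zh := Zh.cls (Quotient.mk fsetoid f)

instance : TopologicalSpace Lh where
  IsOpen s := Lh.inf ∈ s → ∀ᶠ n in (hyperfilter ℕ : Filter ℕ), Lh.fin n ∈ s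
  isOpen_univ := fun _ => Eventually.of_forall fun _ => trivial
  isOpen_inter s t hs ht h := by
    filter_upwards [hs h.1, ht h.2] with n h1 h2
    exact ⟨h1, h2⟩
  isOpen_sUnion S hS h := by
    obtain ⟨t, ht, h⟩ := h
    exact (hS t ht h).mono fun n hn => ⟨t, ht, hn⟩

theorem Lh.isOpen_iff {s : Set Lh} :
    IsOpen s ↔ (Lh.inf ∈ s → ∀ᶠ n in (hyperfilter ℕ : Filter ℕ), Lh.fin n ∈ s) := Iff.rfl

instance : TopologicalSpace Zh where
  IsOpen s := ∀ f : ℕ → ℕ, Zh.mk f ∈ s → ∀ n : ℕ, ∀ᶠ a in (hyperfilter ℕ : Filter ℕ),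
    ∀ k, k ≤ f a + n → f a ≤ k + n → Zh.fin (a, k) ∈ s
  isOpen_univ := fun _ _ _ => Eventually.of_forall fun _ _ _ _ => trivial
  isOpen_inter s t hs ht f h n := by
    filter_upwards [hs f h.1 n, ht f h.2 n] with a h1 h2 k hk hk'
    exact ⟨h1 k hk hk', h2 k hk hk'⟩
  isOpen_sUnion S hS f h n := by
    obtain ⟨t, ht, h⟩ := h
    exact (hS t ht f h n).mono fun a ha k hk hk' => ⟨t, ht, ha k hk hk'⟩

theorem Zh.isOpen_iff {s : Set Zh} :
    IsOpen s ↔ ∀ f : ℕ → ℕ, Zh.mk f ∈ s → ∀ n : ℕ, ∀ᶠ a in (hyperfilter ℕ : Filter ℕ),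
      ∀ k, k ≤ f a + n → f a ≤ k + n → Zh.fin (a, k) ∈ s := Iff.rfl

/-! ## The operations -/

instance algH : Alg Lh Zh where
  zeta p a b := match a, b with
    | .fin a, .fin b => .fin (if a < b then (a, p.1.1 a) else (b, p.1.2 b))
    | .fin a, .inf => .fin (a, p.1.1 a)
    | .inf, .fin b => .fin (b, p.1.2 b)
    | .inf, .inf => Zh.mk p.1.1
  kap z b := match z, b with
    | .fin z, .fin b => .fin (if z.1 < b ∧ z.2 = 2 ^ b then 1 else 0)
    | _, _ => .fin 0
  pj z := match z with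
    | .fin z => .fin z.1
    | .cls _ => .inf
  rh n z := match z with
    | .fin z => .fin (if z.1 = n then z.2 else 0)
    | .cls _ => .fin 0
  zero := .fin 0

/-- The inclusion of the discrete algebra. -/
def incl : AHom ℕ (ℕ × ℕ) Lh Zh where
  toL := Lh.fin
  toZ := Zh.fin
  zeta _ _ _ := rfl
  kap _ _ := rfl
  pj _ := rfl
  rh _ _ := rfl
  zero := rfl

/-- The operations are continuous. -/
class TopAlg (L Z : Type) [Alg L Z] [TopologicalSpace L] [TopologicalSpace Z] : Prop where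
  zeta : ∀ p : Param, Continuous fun x : L × L => (Alg.zeta p x.1 x.2 : Z)
  kap : Continuous fun x : Z × L => (Alg.kap x.1 x.2 : L)
  pj : Continuous fun z : Z => (Alg.pj z : L)
  rh : ∀ n : ℕ, Continuous fun z : Z => (Alg.rh n z : L)

/-! ## Payloads, values, words, and the extension -/

section

variable {L Z : Type} [TopologicalSpace L] [TopologicalSpace Z]

instance : TopologicalSpace (Pay L Z) where
  IsOpen s := (∀ φ, IsOpen {a : L | Pay.lam φ a ∈ s}) ∧ IsOpen {z : Z | Pay.zed z ∈ s}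
  isOpen_univ := ⟨fun _ => isOpen_univ, isOpen_univ⟩
  isOpen_inter s t hs ht := ⟨fun φ => (hs.1 φ).inter (ht.1 φ), hs.2.inter ht.2⟩
  isOpen_sUnion S hS := by
    constructor
    · intro φ
      have : {a : L | Pay.lam φ a ∈ ⋃₀ S} = ⋃ s ∈ S, {a : L | Pay.lam φ a ∈ s} := by
        ext a
        simp
      rw [this]
      exact isOpen_biUnion fun s hs => (hS s hs).1 φ
    · have : {z : Z | Pay.zed z ∈ ⋃₀ S} = ⋃ s ∈ S, {z : Z | Pay.zed z ∈ s} := by
        ext a
        simp
      rw [this]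
      exact isOpen_biUnion fun s hs => (hS s hs).2

theorem Pay.isOpen_iff {s : Set (Pay L Z)} :
    IsOpen s ↔ (∀ φ, IsOpen {a : L | Pay.lam φ a ∈ s}) ∧ IsOpen {z : Z | Pay.zed z ∈ s} :=
  Iff.rfl

end

instance : TopologicalSpace Code := ⊥

instance : DiscreteTopology Code := ⟨rfl⟩

/-- The operation of the magma is continuous. -/
class TopMag (Q : Type) [Mag Q] [TopologicalSpace Q] : Prop where
  op : Continuous fun p : Q × Q => Mag.op p.1 p.2

instance {Q : Type} [TopologicalSpace Q] : TopologicalSpace (Wd Q) :=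
  TopologicalSpace.induced Subtype.val inferInstance

instance {S T : Type} [Monoid S] [Monoid T] [TopologicalSpace S] (τ : S →* T) :
    TopologicalSpace (Ext τ) :=
  TopologicalSpace.coinduced (Ext.inS τ) inferInstance

theorem Ext.isOpen_iff {S T : Type} [Monoid S] [Monoid T] [TopologicalSpace S] (τ : S →* T)
    {s : Set (Ext τ)} : IsOpen s ↔ IsOpen {x : S | Ext.inS τ x ∈ s} := isOpen_coinduced

end Pool.Agent.Work.MP_0181e9_al
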