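import Pool.Agent.Work.MP_0181e9_al.TopDefs

/-!
# The two spaces are Hausdorff
-/

set_option autoImplicit false

namespace Pool.Agent.Work.MP_0181e9_al

open Filter Topology

universe u v w

private theorem ne_ev (a : ℕ) : ∀ᶠ n in (hyperfilter ℕ : Filter ℕ), n ≠ a := by
  have h : ∀ᶠ n in (hyperfilter ℕ : Filter ℕ), a < n :=
    (Nat.hyperfilter_le_atTop) (eventually_gt_atTop a)
  exact h.mono fun n hn => by omega

private theorem Lh.open_fin (a : ℕ) : IsOpen {Lh.fin a} := by
  rw [Lh.isOpen_iff]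
  intro h
  simp at h

private theorem Lh.open_compl (a : ℕ) : IsOpen ({Lh.fin a}ᶜ : Set Lh) := by
  rw [Lh.isOpen_iff]
  intro _
  refine (ne_ev a).mono fun n hn => ?_
  simp only [Set.mem_compl_iff, Set.mem_singleton_iff, Lh.fin.injEq]
  exact hn

private theorem Zh.open_fin (z : ℕ × ℕ) : IsOpen {Zh.fin z} := by
  rw [Zh.isOpen_iff]
  intro f h
  simp [Zh.mk] at h

private theorem Zh.open_compl (z : ℕ × ℕ) : IsOpen ({Zh.fin z}ᶜ : Set Zh) := by
  rw [Zh.isOpen_iff]
  intro f _ n
  refine (ne_ev z.1).mono fun a ha k _ _ => ?_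
  simp only [Set.mem_compl_iff, Set.mem_singleton_iff, Zh.fin.injEq]
  rintro rfl
  exact ha rfl

/-- The pairs nearer to `f` than to `g`. -/
private def near (f g : ℕ → ℕ) : Set Zh :=
  {x | x = Zh.mk f ∨ ∃ a k, x = Zh.fin (a, k) ∧
    (k - f a) + (f a - k) < (k - g a) + (g a - k)}

private theorem near_open (f g : ℕ → ℕ) (h : ¬ fsetoid f g) : IsOpen (near f g) := by
  rw [Zh.isOpen_iff]
  intro f' hf' n
  have h1 : fsetoid f' f := by
    rcases hf' with h1 | ⟨a, k, h1, _⟩
    · simp only [Zh.mk, Zh.cls.injEq] at h1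
      exact Quotient.exact h1
    · simp [Zh.mk] at h1
  obtain ⟨m, hm⟩ := h1
  have h2 : ∀ᶠ a in (hyperfilter ℕ : Filter ℕ),
      ¬ (f a ≤ g a + 2 * (n + m) ∧ g a ≤ f a + 2 * (n + m)) := by
    rw [Ultrafilter.eventually_not]
    intro h3
    exact h ⟨_, h3⟩
  filter_upwards [hm, h2] with a h3 h4 k h5 h6
  refine Or.inr ⟨a, k, rfl, ?_⟩
  omega

instance : T2Space Lh := by
  refine ⟨fun x y hxy => ?_⟩
  rcases x with a | _
  · refine ⟨{Lh.fin a}, {Lh.fin a}ᶜ, Lh.open_fin a, Lh.open_compl a, rfl, ?_,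
      disjoint_compl_right⟩
    simpa using fun h => hxy h.symm
  · rcases y with b | _
    · refine ⟨{Lh.fin b}ᶜ, {Lh.fin b}, Lh.open_compl b, Lh.open_fin b, ?_, rfl,
        disjoint_compl_left⟩
      simp
    · exact absurd rfl hxy

instance : T2Space Zh := by
  refine ⟨fun x y hxy => ?_⟩
  rcases x with z | q
  · refine ⟨{Zh.fin z}, {Zh.fin z}ᶜ, Zh.open_fin z, Zh.open_compl z, rfl, ?_,
      disjoint_compl_right⟩
    simpa using fun h => hxy h.symm
  · rcases y with z | q'
    · refine ⟨{Zh.fin z}ᶜ, {Zh.fin z}, Zh.open_compl z, Zh.open_fin z, ?_, rfl,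
        disjoint_compl_left⟩
      simp
    · induction q using Quotient.inductionOn with
      | _ f =>
        induction q' using Quotient.inductionOn with
        | _ g =>
          have h : ¬ fsetoid f g := by
            intro h
            apply hxy
            rw [Quotient.sound h]
          have h' : ¬ fsetoid g f := fun h1 => h (fsetoid.symm h1)
          refine ⟨near f g, near g f, near_open f g h, near_open g f h', Or.inl rfl,
            Or.inl rfl, ?_⟩
          rw [Set.disjoint_left]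
          rintro x (rfl | ⟨a, k, rfl, h1⟩) (h2 | ⟨a', k', h2, h3⟩)
          · simp only [Zh.mk, Zh.cls.injEq] at h2
            exact h (Quotient.exact h2)
          · simp [Zh.mk] at h2
          · simp [Zh.mk] at h2
          · simp only [Zh.fin.injEq, Prod.mk.injEq] at h2
            obtain ⟨rfl, rfl⟩ := h2
            omega

theorem Lh.isOpen_fin (a : ℕ) : IsOpen {Lh.fin a} := Lh.open_fin a

theorem Zh.isOpen_fin (z : ℕ × ℕ) : IsOpen {Zh.fin z} := Zh.open_fin z

end Pool.Agent.Work.MP_0181e9_al
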