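import Mathlib

/-!
# Closed semigroups and the word semigroup of a magma
-/

set_option autoImplicit false

namespace Pool.Agent.Work.MP_0181e9_al

universe u v

/-! ## Closed semigroups -/

/-- The space has a base of clopen sets. -/
def ClopenBase (Y : Type u) [TopologicalSpace Y] : Prop :=
  ∀ (y : Y) (G : Set Y), IsOpen G → y ∈ G → ∃ O : Set Y, IsClopen O ∧ y ∈ O ∧ O ⊆ G

/-- `h` is an injective homomorphism which embeds `X` with the discrete topology. -/
def DiscEmb {X : Type v} {Y : Type u} [Semigroup X] [Semigroup Y] [TopologicalSpace Y]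
    (h : X →ₙ* Y) : Prop :=
  Function.Injective h ∧ ∀ x, ∃ G : Set Y, IsOpen G ∧ ∀ x', h x' ∈ G ↔ x' = x

/-- `X` is closed in every Hausdorff topological semigroup (in which it is embedded as a discrete
subsemigroup). -/
def T2SClosed (X : Type v) [Semigroup X] : Prop :=
  ∀ (Y : Type u) [Semigroup Y] [TopologicalSpace Y] [ContinuousMul Y] [T2Space Y]
    (h : X →ₙ* Y), DiscEmb h → IsClosed (Set.range h)

/-- `X` is closed in every Hausdorff zero-dimensional topological semigroup. -/
def TzSClosed (X : Type v) [Semigroup X] : Prop :=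
  ∀ (Y : Type u) [Semigroup Y] [TopologicalSpace Y] [ContinuousMul Y] [T2Space Y]
    (h : X →ₙ* Y), ClopenBase Y → DiscEmb h → IsClosed (Set.range h)

/-! ## The word semigroup of a magma -/

/-- A magma. -/
class Mag (Q : Type) where
  op : Q → Q → Q

/-- Letters: `Sum.inl ()` is the operator symbol, `Sum.inr q` a value. -/
abbrev Ltr (Q : Type) := Unit ⊕ Q

section

variable {Q Q' Q'' : Type}

/-- Irreducible words: no operator is followed by two values. -/
def Irr : List (Ltr Q) → Prop
  | [] => True
  | Sum.inr _ :: w => Irr w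
  | [Sum.inl _] => True
  | Sum.inl _ :: Sum.inl a :: w => Irr (Sum.inl a :: w)
  | [Sum.inl _, Sum.inr _] => True
  | Sum.inl _ :: Sum.inr _ :: Sum.inl a :: w => Irr (Sum.inl a :: w)
  | Sum.inl _ :: Sum.inr _ :: Sum.inr _ :: _ => False

/-- Left multiplication by a letter. -/
def act [Mag Q] : Ltr Q → List (Ltr Q) → List (Ltr Q)
  | Sum.inl _, Sum.inr q :: Sum.inr r :: w => Sum.inr (Mag.op q r) :: w
  | x, w => x :: w

@[simp] theorem act_val [Mag Q] (q : Q) (w : List (Ltr Q)) :
    act (Sum.inr q) w = Sum.inr q :: w := rfl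

@[simp] theorem act_op [Mag Q] (q r : Q) (w : List (Ltr Q)) :
    act (Sum.inl ()) (Sum.inr q :: Sum.inr r :: w) = Sum.inr (Mag.op q r) :: w := rfl

@[simp] theorem irr_cons_val (q : Q) (w : List (Ltr Q)) : Irr (Sum.inr q :: w) ↔ Irr w := by
  cases w <;> simp [Irr]

theorem Irr.tail {x : Ltr Q} {w : List (Ltr Q)} (h : Irr (x :: w)) : Irr w := by
  rcases x with x | x
  · rcases w with _ | ⟨y, w⟩
    · trivial
    · rcases y with y | y
      · exact h
      · rcases w with _ | ⟨z, w⟩
        · simp [Irr]
        · rcases z with z | z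
          · simp only [Irr] at h
            simp only [irr_cons_val]
            exact h
          · simp [Irr] at h
  · exact (irr_cons_val x w).1 h

theorem irr_act [Mag Q] (x : Ltr Q) {w : List (Ltr Q)} (h : Irr w) : Irr (act x w) := by
  rcases x with x | x
  · rcases w with _ | ⟨y, w⟩
    · simp [act, Irr]
    · rcases y with y | y
      · simpa [act, Irr] using h
      · rcases w with _ | ⟨z, w⟩
        · simp [act, Irr]
        · rcases z with z | z
          · simp only [irr_cons_val] at h
            simpa [act, Irr] using h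
          · simp only [act, irr_cons_val] at h ⊢
            exact h
  · simpa using h

/-- The product of words. -/
def wmul [Mag Q] (v w : List (Ltr Q)) : List (Ltr Q) := v.foldr act w

@[simp] theorem wmul_nil [Mag Q] (w : List (Ltr Q)) : wmul [] w = w := rfl

@[simp] theorem wmul_cons [Mag Q] (x : Ltr Q) (v w : List (Ltr Q)) :
    wmul (x :: v) w = act x (wmul v w) := rfl

theorem act_wmul [Mag Q] (x : Ltr Q) (v w : List (Ltr Q)) :
    act x (wmul v w) = wmul (act x v) w := by
  rcases x with x | x
  · rcases v with _ | ⟨y, v⟩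
    · rfl
    · rcases y with y | y
      · rfl
      · rcases v with _ | ⟨z, v⟩
        · rfl
        · rcases z with z | z
          · rfl
          · rfl
  · rfl

theorem wmul_assoc [Mag Q] (u v w : List (Ltr Q)) :
    wmul (wmul u v) w = wmul u (wmul v w) := by
  induction u with
  | nil => rfl
  | cons x u ih =>
    show wmul (act x (wmul u v)) w = act x (wmul u (wmul v w))
    rw [← act_wmul, ih]

theorem irr_wmul [Mag Q] (v : List (Ltr Q)) {w : List (Ltr Q)} (h : Irr w) :
    Irr (wmul v w) := by
  induction v with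
  | nil => exact h
  | cons x v ih => exact irr_act x ih

theorem act_of_irr [Mag Q] {x : Ltr Q} {w : List (Ltr Q)} (h : Irr (x :: w)) :
    act x w = x :: w := by
  rcases x with x | x
  · rcases w with _ | ⟨y, w⟩
    · rfl
    · rcases y with y | y
      · rfl
      · rcases w with _ | ⟨z, w⟩
        · rfl
        · rcases z with z | z
          · rfl
          · simp [Irr] at h
  · rfl

theorem wmul_nil_right [Mag Q] {w : List (Ltr Q)} (h : Irr w) : wmul w [] = w := by
  induction w with
  | nil => rfl
  | cons x w ih => rw [wmul_cons, ih h.tail, act_of_irr h]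

/-- The word semigroup `⟨Q, f | f q r = q ∘ r⟩`, realised by irreducible words. -/
def Wd (Q : Type) : Type := {w : List (Ltr Q) // Irr w}

namespace Wd

instance [Mag Q] : Monoid (Wd Q) where
  mul u v := ⟨wmul u.1 v.1, irr_wmul u.1 v.2⟩
  one := ⟨[], trivial⟩
  mul_assoc u v w := Subtype.ext (wmul_assoc u.1 v.1 w.1)
  one_mul _ := rfl
  mul_one u := Subtype.ext (wmul_nil_right u.2)

theorem mul_val [Mag Q] (u v : Wd Q) : (u * v).1 = wmul u.1 v.1 := rfl

theorem one_val [Mag Q] : (1 : Wd Q).1 = [] := rfl

/-- The operator symbol. -/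
def f : Wd Q := ⟨[Sum.inl ()], trivial⟩

/-- A value. -/
def v (q : Q) : Wd Q := ⟨[Sum.inr q], by simp [Irr]⟩

@[simp] theorem f_v_v [Mag Q] (q r : Q) : (f : Wd Q) * (v q * v r) = v (Mag.op q r) := rfl

theorem f_v_v' [Mag Q] (q r : Q) (w : Wd Q) : (f : Wd Q) * (v q * (v r * w)) =
    v (Mag.op q r) * w := by
  rw [← mul_assoc (v q), ← mul_assoc, f_v_v]

theorem v_injective : Function.Injective (v : Q → Wd Q) := by
  intro q r h
  have := congrArg Subtype.val h
  simpa [v] using this

/-- The generator of a letter. -/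
def g : Ltr Q → Wd Q
  | Sum.inl _ => f
  | Sum.inr q => v q

/-- The product of the letters of a list. -/
def pr [Mag Q] (l : List (Ltr Q)) : Wd Q := (l.map g).prod

@[simp] theorem pr_nil [Mag Q] : pr ([] : List (Ltr Q)) = 1 := rfl

@[simp] theorem pr_cons [Mag Q] (x : Ltr Q) (l : List (Ltr Q)) : pr (x :: l) = g x * pr l := by
  simp [pr]

theorem pr_append [Mag Q] (l l' : List (Ltr Q)) : pr (l ++ l') = pr l * pr l' := by
  simp [pr]

theorem pr_eq [Mag Q] (w : Wd Q) : pr w.1 = w := by
  obtain ⟨w, hw⟩ := w
  apply Subtype.ext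
  induction w with
  | nil => rfl
  | cons x w ih =>
    rw [pr_cons, mul_val, ih hw.tail]
    rcases x with x | x
    · exact act_of_irr hw
    · exact act_of_irr hw

end Wd

/-! ## Functoriality -/

/-- The map on letters. -/
def lmap (φ : Q → Q') : Ltr Q → Ltr Q' := Sum.map id φ

theorem irr_map (φ : Q → Q') {w : List (Ltr Q)} (h : Irr w) : Irr (w.map (lmap φ)) := by
  induction w with
  | nil => trivial
  | cons x w ih =>
    have ih := ih h.tail
    rcases x with x | x
    · rcases w with _ | ⟨y, w⟩
      · trivial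
      · rcases y with y | y
        · exact ih
        · rcases w with _ | ⟨z, w⟩
          · trivial
          · rcases z with z | z
            · simp only [List.map_cons, lmap, Sum.map_inl, Sum.map_inr, irr_cons_val] at ih ⊢
              exact ih
            · simp [Irr] at h
    · simpa [lmap] using ih

/-- Homomorphisms of magmas. -/
structure MHom (Q Q' : Type) [Mag Q] [Mag Q'] where
  toFun : Q → Q'
  map_op : ∀ x y, toFun (Mag.op x y) = Mag.op (toFun x) (toFun y)

theorem map_act [Mag Q] [Mag Q'] (φ : MHom Q Q') (x : Ltr Q) (w : List (Ltr Q)) :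
    (act x w).map (lmap φ.toFun) = act (lmap φ.toFun x) (w.map (lmap φ.toFun)) := by
  rcases x with x | x
  · rcases w with _ | ⟨y, w⟩
    · rfl
    · rcases y with y | y
      · rfl
      · rcases w with _ | ⟨z, w⟩
        · rfl
        · rcases z with z | z
          · rfl
          · simp only [act, List.map_cons, lmap, Sum.map_inr, Sum.map_inl, φ.map_op]
  · rfl

/-- The homomorphism of word semigroups induced by a homomorphism of magmas. -/
def Wd.map [Mag Q] [Mag Q'] (φ : MHom Q Q') : Wd Q →* Wd Q' where
  toFun w := ⟨w.1.map (lmap φ.toFun), irr_map _ w.2⟩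
  map_one' := rfl
  map_mul' u v := by
    apply Subtype.ext
    obtain ⟨u, hu⟩ := u
    change (wmul u v.1).map _ = wmul (u.map _) (v.1.map _)
    clear hu
    induction u with
    | nil => rfl
    | cons x u ih => rw [wmul_cons, map_act, ih, List.map_cons, wmul_cons]

theorem Wd.map_val [Mag Q] [Mag Q'] (φ : MHom Q Q') (w : Wd Q) :
    (Wd.map φ w).1 = w.1.map (lmap φ.toFun) := rfl

end

/-! ## The extension by a completely simple ideal -/

section

variable {S T : Type} [Monoid S] [Monoid T]

/-- `S` together with the completely simple ideal over `T`, where `S` acts through `τ`. -/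
def Ext (_τ : S →* T) : Type := S ⊕ (T × (T →₀ ZMod 2) × T)

namespace Ext

/-- The multiplication. -/
noncomputable def mul (τ : S →* T) : Ext τ → Ext τ → Ext τ
  | Sum.inl s, Sum.inl s' => Sum.inl (s * s')
  | Sum.inl s, Sum.inr (l, h, r) => Sum.inr (τ s * l, h, r)
  | Sum.inr (l, h, r), Sum.inl s => Sum.inr (l, h, r * τ s)
  | Sum.inr (l, h, r), Sum.inr (l', h', r') =>
      Sum.inr (l, h + Finsupp.single (r * l') 1 + h', r')

noncomputable instance (τ : S →* T) : Semigroup (Ext τ) where
  mul := mul τ
  mul_assoc a b c := by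
    change mul τ (mul τ a b) c = mul τ a (mul τ b c)
    rcases a with a | ⟨l, h, r⟩ <;> rcases b with b | ⟨l', h', r'⟩ <;>
      rcases c with c | ⟨l'', h'', r''⟩ <;>
      simp only [mul, mul_assoc, map_mul, add_assoc]

/-- The inclusion of `S`. -/
def inS (τ : S →* T) (s : S) : Ext τ := Sum.inl s

/-- The elements of the ideal. -/
def inI (τ : S →* T) (l : T) (h : T →₀ ZMod 2) (r : T) : Ext τ := Sum.inr (l, h, r)

variable (τ : S →* T)

theorem inS_mul (s s' : S) : inS τ s * inS τ s' = inS τ (s * s') := rfl

theorem inS_mul_inI (s : S) (l : T) (h : T →₀ ZMod 2) (r : T) :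
    inS τ s * inI τ l h r = inI τ (τ s * l) h r := rfl

theorem inI_mul_inS (s : S) (l : T) (h : T →₀ ZMod 2) (r : T) :
    inI τ l h r * inS τ s = inI τ l h (r * τ s) := rfl

theorem inI_mul_inI (l : T) (h : T →₀ ZMod 2) (r l' : T) (h' : T →₀ ZMod 2) (r' : T) :
    inI τ l h r * inI τ l' h' r' = inI τ l (h + Finsupp.single (r * l') 1 + h') r' := rfl

theorem inS_injective : Function.Injective (inS τ) := fun _ _ h => Sum.inl.inj h

theorem inI_inj {l l' : T} {h h' : T →₀ ZMod 2} {r r' : T} :
    inI τ l h r = inI τ l' h' r' ↔ l = l' ∧ h = h' ∧ r = r' := by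
  constructor
  · intro e
    have e := Sum.inr.inj e
    rw [Prod.mk.injEq, Prod.mk.injEq] at e
    exact e
  · rintro ⟨rfl, rfl, rfl⟩
    rfl

theorem cases' (x : Ext τ) : (∃ s, x = inS τ s) ∨ ∃ l h r, x = inI τ l h r := by
  rcases x with s | ⟨l, h, r⟩
  · exact Or.inl ⟨s, rfl⟩
  · exact Or.inr ⟨l, h, r, rfl⟩

end Ext

end

end Pool.Agent.Work.MP_0181e9_al
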